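import Mathlib
import Pool.Agent.Helper669.Forcing

/-!
# The Levy collapse and the unbalanced polarized relation

Sentences of the forcing language are represented by the sets of conditions which force them, see
`Pool.Agent.Helper669.Forcing`. The cardinal `κ` is given by a well-ordered set `K` of order type
`κ`; the ordinals below `κ` are the order types of the initial segments `Set.Iio a`, `a : K`.
-/

set_option autoImplicit false

namespace Pool.Agent.Q213.LV

open Cardinal Set
open Pool.Agent.Helper669.Forcing

/-- The conditions of the Levy collapse of `#L` to `#K`: partial functions from `K` to `L` whose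
domain has size less than `#K`. -/
structure Levy (K L : Type) where
  f : K → Option L
  small : #{x // f x ≠ none} < #K

/-- Stronger conditions are extensions. -/
instance {K L : Type} : Preorder (Levy K L) where
  le q p := ∀ x y, p.f x = some y → q.f x = some y
  le_refl _ _ _ h := h
  le_trans _ _ _ h h' x y hy := h x y (h' x y hy)

section

variable {P : Type} [Preorder P]

/-- `R` names a strictly increasing function from `W` to `K`. -/
def IsInc {W K : Type} [LT W] [LT K] (R : W → K → Set P) : Set P :=
  fand (IsFun R) (fall fun w => fall fun w' => fall fun _ : w < w' => fall fun x => fall fun x' =>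
    fimp (fand (meets (R w x)) (meets (R w' x'))) (fground (x < x')))

/-- The subset of `K` named by `A` has the order type of `W`: it is the range of a strictly
increasing function defined on `W`. -/
def OfType (W : Type) {K : Type} [LT W] [LT K] (A : K → Set P) : Set P :=
  fex fun R : W → K → Set P => fand (IsInc R)
    (fall fun x => fand (fall fun w => fimp (meets (R w x)) (meets (A x)))
      (fimp (meets (A x)) (fex fun w => meets (R w x))))

/-- The subset of `ℕ` named by `B` is infinite. -/
def FInf (B : ℕ → Set P) : Set P :=
  fall fun m : ℕ => fex fun n : ℕ => fand (fground (m ≤ n)) (meets (B n))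

/-- The colour of `(x, n)` is `i`, where `c` names the set of the pairs of colour `true`. -/
def HasColour {X : Type} (c : X → ℕ → Set P) (x : X) (n : ℕ) : Bool → Set P
  | true => meets (c x n)
  | false => fnot (meets (c x n))

/-- There are a subset `A` of `K` of the order type of `W` and an infinite `B ⊆ ω` such that `c`
is constant with value `i` on `A × B`. -/
def Homog (W : Type) {K : Type} [LT W] [LT K] (c : K → ℕ → Set P) (i : Bool) : Set P :=
  fex fun A : K → Set P => fex fun B : ℕ → Set P =>
    fand (OfType W A) (fand (FInf B) (fall fun x => fall fun n =>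
      fimp (fand (meets (A x)) (meets (B n))) (HasColour c x n i)))

end

/-- In the extension by `P` the relation `(κ; ω) → (κ α; ω ω)` holds, where `κ` and `α` are the
order types of `K` and `W`: every colouring of `K × ω` has a homogeneous `A × B` of colour `0`
with `A` of type `κ`, or one of colour `1` with `A` of type `α`. -/
def Unbalanced (P : Type) [Preorder P] (K W : Type) [LT K] [LT W] : Set P :=
  fall fun c : K → ℕ → Set P => fnot (fand (fnot (Homog K c false)) (fnot (Homog W c true)))

/-- In the extension by `P` the strong relation `(κ; ω) → (κ; ω)` holds, where `κ` is the order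
type of `K`. -/
def Strong (P : Type) [Preorder P] (K : Type) [LT K] : Set P :=
  fall fun c : K → ℕ → Set P => fex fun i : Bool => Homog K c i

/-- A dense open family of infinite subsets of `ω`. -/
def OpenDense (D : Set (Set ℕ)) : Prop :=
  (∀ B ∈ D, B.Infinite) ∧ (∀ B ∈ D, ∀ B' : Set ℕ, B'.Infinite → (B' \ B).Finite → B' ∈ D) ∧
    ∀ B : Set ℕ, B.Infinite → ∃ B' ⊆ B, B' ∈ D

/-- The distributivity number `𝔥`: the least number of dense open families whose intersection is
not dense. -/
noncomputable def hNum : Cardinal.{0} :=
  sInf {μ | ∃ 𝒟 : Set (Set (Set ℕ)), #𝒟 = μ ∧ (∀ D ∈ 𝒟, OpenDense D) ∧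
    ∃ B : Set ℕ, B.Infinite ∧ ∀ B' ⊆ B, B'.Infinite → ∃ D ∈ 𝒟, B' ∉ D}

/-- The reaping number `𝔯`: the least size of a family of infinite sets which is not split by a
single set. -/
noncomputable def rNum : Cardinal.{0} :=
  sInf {μ | ∃ ℛ : Set (Set ℕ), #ℛ = μ ∧ (∀ B ∈ ℛ, B.Infinite) ∧
    ∀ X : Set ℕ, ∃ B ∈ ℛ, (B \ X).Finite ∨ (B ∩ X).Finite}

end Pool.Agent.Q213.LV
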