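import Mathlib
import Pool.Agent.Q213.LV.Defs

set_option autoImplicit false

namespace Pool.Agent.Q213.LV

open Cardinal Set
open Pool.Agent.Helper669.Forcing

/-- The facts about `K` which are used. -/
structure Kap (κ : Cardinal.{0}) (K : Type) [LinearOrder K] : Prop where
  iio : ∀ x : K, #(Iio x) < κ
  bdd : ∀ S : Set K, #S < κ → ∃ y, ∀ x ∈ S, x < y

theorem kap {κ : Cardinal.{0}} (hκ : κ.IsRegular) (K : Type) [LinearOrder K] [WellFoundedLT K]
    (hK : Ordinal.type ((· < ·) : K → K → Prop) = κ.ord) : #K = κ ∧ Kap κ K := by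
  have h1 : #K = κ := by
    have := congrArg Ordinal.card hK
    rwa [Ordinal.card_type, card_ord] at this
  refine ⟨h1, ?_, ?_⟩
  · intro x
    rw [← h1]
    exact mk_Iio_lt x (by rw [h1, hK])
  · intro S hS
    have hcof : Order.cof K = κ := by
      rw [← Ordinal.cof_type, hK, hκ.cof_ord]
    by_contra hcon
    push Not at hcon
    have : IsCofinal S := fun y => by
      obtain ⟨x, hx, hxy⟩ := hcon y
      exact ⟨x, hx, hxy⟩
    have h2 := Order.cof_le this
    rw [hcof] at h2
    exact absurd hS (not_lt.2 h2)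

/-- Chains of fewer than `κ` conditions have lower bounds. -/
def Closed (κ : Cardinal.{0}) (P : Type) [Preorder P] : Prop :=
  ∀ (ι : Type), #ι < κ → ∀ (q0 : P) (f : ι → P), (∀ i, f i ≤ q0) →
    (∀ i j, f i ≤ f j ∨ f j ≤ f i) → ∃ q ≤ q0, ∀ i, q ≤ f i

theorem closed_levy {κ : Cardinal.{0}} (hκ : κ.IsRegular) (K L : Type) (hK : #K = κ) :
    Closed κ (Levy K L) := by
  classical
  intro ι hι q0 f hf hch
  rcases isEmpty_or_nonempty ι with he | ⟨⟨i0⟩⟩
  · exact ⟨q0, le_rfl, fun i => (he.false i).elim⟩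
  have huniq : ∀ (x : K) i j y z, (f i).f x = some y → (f j).f x = some z → y = z := by
    intro x i j y z h1 h2
    rcases hch i j with h | h
    · have := h x z h2
      rw [h1] at this
      exact Option.some.inj this
    · have := h x y h1
      rw [h2] at this
      exact (Option.some.inj this).symm
  let g : K → Option L := fun x => if h : ∃ y, ∃ i, (f i).f x = some y then some h.choose else none
  have hg : ∀ x y i, (f i).f x = some y → g x = some y := by
    intro x y i h
    have hex : ∃ y, ∃ i, (f i).f x = some y := ⟨y, i, h⟩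
    obtain ⟨j, hj⟩ := hex.choose_spec
    have : g x = some hex.choose := dif_pos hex
    rw [this, huniq x j i _ _ hj h]
  have hdom : {x | g x ≠ none} ⊆ ⋃ i, {x | (f i).f x ≠ none} := by
    intro x hx
    by_contra hcon
    apply hx
    apply dif_neg
    rintro ⟨y, i, h⟩
    exact hcon (mem_iUnion.2 ⟨i, fun h' => by rw [h] at h'; cases h'⟩)
  have hsmall : #{x | g x ≠ none} < #K := by
    refine (mk_le_mk_of_subset hdom).trans_lt ?_
    rw [hK, card_iUnion_lt_iff_forall_of_isRegular hκ hι]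
    intro i
    have := (f i).small
    rw [hK] at this
    exact this
  refine ⟨⟨g, hsmall⟩, ?_, ?_⟩
  · intro x y h
    exact hg x y i0 (hf i0 x y h)
  · intro i x y h
    exact hg x y i h

/-- A recursion along a well-ordered set of size less than `κ`. -/
theorem seq {κ : Cardinal.{0}} {P : Type} [Preorder P] (hP : Closed κ P)
    {J Y : Type} [LinearOrder J] [WellFoundedLT J] [Nonempty Y] (hJ : #J < κ) (q0 : P)
    (Φ : (j : J) → (Iio j → Y) → Y → P → Prop)
    (hΦ : ∀ j h, ∀ q ≤ q0, ∃ r ≤ q, ∃ y, Φ j h y r) :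
    ∃ (h : J → Y) (r : J → P), (∀ j j', j < j' → r j' ≤ r j) ∧
      (∀ j, Φ j (fun j' => h j'.1) (h j) (r j)) ∧ ∃ q ≤ q0, ∀ j, q ≤ r j := by
  classical
  obtain ⟨y0⟩ := ‹Nonempty Y›
  let step : (j : J) → (Iio j → P × Y) → P × Y := fun j H =>
    if h : ∃ z : P × Y, z.1 ≤ q0 ∧ (∀ j', z.1 ≤ (H j').1) ∧ Φ j (fun j' => (H j').2) z.2 z.1
    then h.choose else (q0, y0)
  let F : J → P × Y := (wellFounded_lt (α := J)).fix fun j H => step j fun j' => H j'.1 j'.2
  have hF : ∀ j, F j = step j fun j' => F j'.1 := fun j => (wellFounded_lt (α := J)).fix_eq _ _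
  have key : ∀ j, (F j).1 ≤ q0 ∧ (∀ j' < j, (F j).1 ≤ (F j').1) ∧
      Φ j (fun j' => (F j'.1).2) (F j).2 (F j).1 := by
    intro j
    induction j using (wellFounded_lt (α := J)).induction with
    | _ j ih =>
    have hex : ∃ z : P × Y, z.1 ≤ q0 ∧ (∀ j' : Iio j, z.1 ≤ (F j'.1).1) ∧
        Φ j (fun j' => (F j'.1).2) z.2 z.1 := by
      obtain ⟨q, hq, hq'⟩ := hP (Iio j) ((mk_le_mk_of_subset (subset_univ (Iio j))).trans_lt
        (by rw [mk_univ]; exact hJ)) q0 (fun j' => (F j'.1).1)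
        (fun j' => (ih j'.1 j'.2).1) (fun a b => by
          rcases lt_trichotomy a.1 b.1 with h | h | h
          · exact Or.inr ((ih b.1 b.2).2.1 a.1 h)
          · rw [h]
            exact Or.inl le_rfl
          · exact Or.inl ((ih a.1 a.2).2.1 b.1 h))
      obtain ⟨r, hr, y, hy⟩ := hΦ j (fun j' => (F j'.1).2) q hq
      exact ⟨(r, y), hr.trans hq, fun j' => hr.trans (hq' j'), hy⟩
    have h1 : F j = hex.choose := by
      rw [hF j]
      exact dif_pos hex
    have h2 := hex.choose_spec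
    rw [← h1] at h2
    exact ⟨h2.1, fun j' hj' => h2.2.1 ⟨j', hj'⟩, h2.2.2⟩
  refine ⟨fun j => (F j).2, fun j => (F j).1, fun j j' h => (key j').2.1 j h,
    fun j => (key j).2.2, ?_⟩
  exact hP J hJ q0 (fun j => (F j).1) (fun j => (key j).1) (fun a b => by
    rcases lt_trichotomy a b with h | h | h
    · exact Or.inr ((key b).2.1 a h)
    · rw [h]
      exact Or.inl le_rfl
    · exact Or.inl ((key a).2.1 b h))

/-- Fewer than `κ` sentences can be decided. -/
theorem decide {κ : Cardinal.{0}} {P : Type} [Preorder P] (hP : Closed κ P)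
    {J : Type} [LinearOrder J] [WellFoundedLT J] (hJ : #J < κ) (S : J → Set P)
    (hS : ∀ j, Down (S j)) (q0 : P) :
    ∃ q ≤ q0, ∀ j, q ∈ S j ∨ q ∈ fnot (S j) := by
  obtain ⟨-, r, -, hr, q, hq, hqr⟩ := seq hP (Y := Unit) hJ q0
    (fun j _ _ r => r ∈ S j ∨ r ∈ fnot (S j)) (fun j _ q _ => by
      by_cases h : ∃ r ≤ q, r ∈ S j
      · obtain ⟨r, hr, hr'⟩ := h
        exact ⟨r, hr, (), Or.inl hr'⟩
      · exact ⟨q, le_rfl, (), Or.inr fun r hr hr' => h ⟨r, hr, hr'⟩⟩)
  refine ⟨q, hq, fun j => ?_⟩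
  rcases hr j with h | h
  · exact Or.inl (hS j _ h _ (hqr j))
  · exact Or.inr (down_fnot _ _ h _ (hqr j))

end Pool.Agent.Q213.LV
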