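import Mathlib
import Pool.Agent.Q213.LV.Base

set_option autoImplicit false

namespace Pool.Agent.Q213.LV

open Cardinal Set
open Pool.Agent.Helper669.Forcing

section ty

variable {K : Type} [LinearOrder K] [WellFoundedLT K]

/-- The order type of a subset of `K`. -/
noncomputable def ty (T : Set K) : Ordinal.{0} :=
  Ordinal.type (fun a b : T => a < b)

theorem ty_mono {T T' : Set K} (h : T ⊆ T') : ty T ≤ ty T' := Ordinal.type_mono h

theorem ty_cut (T : Set K) (y : T) :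
    ty (T ∩ Iio y.1) = Ordinal.typein (fun a b : T => a < b) y := by
  rw [← Ordinal.type_subrel]
  refine RelIso.ordinalType_congr ?_
  exact { toFun := fun x => ⟨⟨x.1, x.2.1⟩, x.2.2⟩
          invFun := fun z => ⟨z.1.1, z.1.2, z.2⟩
          left_inv := fun _ => rfl
          right_inv := fun _ => rfl
          map_rel_iff' := Iff.rfl }

theorem ty_cut_lt {T : Set K} {y : K} (hy : y ∈ T) : ty (T ∩ Iio y) < ty T := by
  have := ty_cut T ⟨y, hy⟩
  rw [this]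
  exact Ordinal.typein_lt_type _ _

theorem exists_cut {T : Set K} {o : Ordinal.{0}} (h : o < ty T) : ∃ y ∈ T, ty (T ∩ Iio y) = o := by
  obtain ⟨y, hy⟩ := Ordinal.typein_surj (fun a b : T => a < b) h
  exact ⟨y.1, y.2, by rw [ty_cut]; exact hy⟩

theorem ty_Iio_lt {w w' : K} (h : w < w') : ty (Iio w) < ty (Iio w') := by
  have h1 := ty_cut_lt (T := Iio w') (y := w) h
  have h2 : Iio w' ∩ Iio w = Iio w := by
    ext x
    simp only [mem_inter_iff, mem_Iio]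
    exact ⟨fun hx => hx.2, fun hx => ⟨hx.trans h, hx⟩⟩
  rwa [h2] at h1

theorem exists_Iio {o : Ordinal.{0}} (h : o < ty (univ : Set K)) : ∃ w : K, ty (Iio w) = o := by
  obtain ⟨y, -, hy⟩ := exists_cut h
  exact ⟨y, by rwa [univ_inter] at hy⟩

theorem ty_Iio_lt_univ (w : K) : ty (Iio w) < ty (univ : Set K) := by
  have := ty_cut_lt (T := (univ : Set K)) (mem_univ w)
  rwa [univ_inter] at this

theorem eq_of_ty {w w' : K} (h : ty (Iio w) = ty (Iio w')) : w = w' := by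
  rcases lt_trichotomy w w' with h' | h' | h'
  · exact absurd h (ty_Iio_lt h').ne
  · exact h'
  · exact absurd h (ty_Iio_lt h').ne'

/-- A strictly increasing function on `Iic w` with values in `T` -/
theorem ty_lt_of_strictMono {T : Set K} {w : K} (h : Iic w → K) (hm : ∀ i j, i < j → h i < h j)
    (hT : ∀ i, h i ∈ T) : ty (Iio w) < ty T := by
  have h1 : ty (Iio w) < ty (Iic w) := by
    have h2 := ty_cut_lt (T := Iic w) (y := w) le_rfl
    have h3 : Iic w ∩ Iio w = Iio w := by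
      ext x
      simp only [mem_inter_iff, mem_Iio, mem_Iic]
      exact ⟨fun hx => hx.2, fun hx => ⟨hx.le, hx⟩⟩
    rwa [h3] at h2
  refine h1.trans_le ?_
  refine Ordinal.type_le_iff'.2 ⟨RelEmbedding.ofMonotone (fun i => ⟨h i, hT i⟩) ?_⟩
  intro a b hab
  exact hm a b hab

end ty

variable {κ : Cardinal.{0}} {P : Type} [Preorder P] {K : Type} [LinearOrder K] [WellFoundedLT K]

omit [WellFoundedLT K] in
theorem iic_small (hκ0 : ℵ₀ ≤ κ) (hK : Kap κ K) (x : K) : #(Iic x) < κ := by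
  have h1 : Iic x = insert x (Iio x) := by
    ext y
    simp only [mem_Iic, mem_insert_iff, mem_Iio]
    exact le_iff_eq_or_lt
  rw [h1]
  refine (mk_insert_le).trans_lt ?_
  exact add_lt_of_lt hκ0 (hK.iio x) (one_lt_aleph0.trans_le hκ0)

/-- The name of the increasing enumeration of the set named by `S`. -/
def en (S : K → Set P) (w x : K) : Set P :=
  {q | (∀ x' ≤ x, q ∈ S x' ∨ q ∈ fnot (S x')) ∧ q ∈ S x ∧ ty {x' | x' < x ∧ q ∈ S x'} = ty (Iio w)}

theorem dec_iff {S : Set P} (hS : Down S) {q r : P} (hrq : r ≤ q) (h : q ∈ S ∨ q ∈ fnot S) :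
    r ∈ S ↔ q ∈ S := by
  constructor
  · intro hr
    rcases h with h | h
    · exact h
    · exact absurd hr (h r hrq)
  · exact fun h' => hS _ h' _ hrq

theorem down_en {S : K → Set P} (hS : ∀ x, Down (S x)) (w x : K) : Down (en S w x) := by
  rintro q ⟨h1, h2, h3⟩ r hr
  refine ⟨fun x' hx' => ?_, hS x _ h2 _ hr, ?_⟩
  · rcases h1 x' hx' with h | h
    · exact Or.inl (hS x' _ h _ hr)
    · exact Or.inr (down_fnot _ _ h _ hr)
  · rw [← h3]
    congr 1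
    ext x'
    simp only [mem_ofPred_eq]
    constructor
    · rintro ⟨h4, h5⟩
      exact ⟨h4, (dec_iff (hS x') hr (h1 x' h4.le)).1 h5⟩
    · rintro ⟨h4, h5⟩
      exact ⟨h4, (dec_iff (hS x') hr (h1 x' h4.le)).2 h5⟩

theorem en_lt {S : K → Set P} {w w' x x' : K} {q : P} (h : q ∈ en S w x) (h' : q ∈ en S w' x')
    (hw : w < w') : x < x' := by
  by_contra hcon
  push Not at hcon
  have h1 : ty {z | z < x' ∧ q ∈ S z} ≤ ty {z | z < x ∧ q ∈ S z} :=
    ty_mono fun z hz => ⟨hz.1.trans_le hcon, hz.2⟩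
  rw [h.2.2, h'.2.2] at h1
  exact absurd (ty_Iio_lt hw) (not_lt.2 h1)

theorem en_eq {S : K → Set P} {w x x' : K} {q : P} (h : q ∈ en S w x) (h' : q ∈ en S w x') :
    x = x' := by
  have key : ∀ {x x' : K}, q ∈ en S w x → q ∈ en S w x' → ¬ x < x' := by
    intro x x' h h' hlt
    have h1 : ty ({z | z < x' ∧ q ∈ S z} ∩ Iio x) < ty {z | z < x' ∧ q ∈ S z} :=
      ty_cut_lt ⟨hlt, h.2.1⟩
    have h2 : {z | z < x' ∧ q ∈ S z} ∩ Iio x = {z | z < x ∧ q ∈ S z} := by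
      ext z
      simp only [mem_inter_iff, mem_ofPred_eq, mem_Iio]
      exact ⟨fun hz => ⟨hz.2, hz.1.2⟩, fun hz => ⟨⟨hz.1.trans hlt, hz.2⟩, hz.1⟩⟩
    rw [h2, h.2.2, h'.2.2] at h1
    exact lt_irrefl _ h1
  rcases lt_trichotomy x x' with h1 | h1 | h1
  · exact absurd h1 (key h h')
  · exact h1
  · exact absurd h1 (key h' h)

theorem en_total (hκ0 : ℵ₀ ≤ κ) (hP : Closed κ P) (hK : Kap κ K) {S : K → Set P}
    (hS : ∀ x, Down (S x)) {q0 : P}
    (hun : ∀ r ≤ q0, ∀ y, ∃ r' ≤ r, ∃ x, y < x ∧ r' ∈ S x) (w : K) (q : P) (hq : q ≤ q0) :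
    ∃ r ≤ q, ∃ x, r ∈ en S w x := by
  classical
  have : Nonempty K := ⟨w⟩
  obtain ⟨h, r, -, hr, q1, hq1, hqr⟩ := seq hP (J := Iic w) (Y := K)
    (iic_small hκ0 hK w) q
    (fun j h y r => (∀ j', h j' < y) ∧ r ∈ S y) (fun j h q' hq' => by
      obtain ⟨y, hy⟩ := hK.bdd (range h) (mk_range_le.trans_lt
        ((mk_le_mk_of_subset (subset_univ (Iio j))).trans_lt (by
          rw [mk_univ]; exact iic_small hκ0 hK w)))
      obtain ⟨r', hr', x, hx, hx'⟩ := hun q' (hq'.trans hq) y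
      exact ⟨r', hr', x, fun j' => (hy _ ⟨j', rfl⟩).trans hx, hx'⟩)
  obtain ⟨y1, hy1⟩ := hK.bdd (range h) (mk_range_le.trans_lt (iic_small hκ0 hK w))
  obtain ⟨q2, hq2, hdec⟩ := decide hP (J := Iic y1) (iic_small hκ0 hK y1)
    (fun j => S j.1) (fun j => hS j.1) q1
  have h1 : ty (Iio w) < ty {z | z < y1 ∧ q2 ∈ S z} :=
    ty_lt_of_strictMono h (fun i j hij => (hr j).1 ⟨i, hij⟩)
      fun i => ⟨hy1 _ ⟨i, rfl⟩, hS _ _ (hr i).2 _ (hq2.trans (hqr i))⟩
  obtain ⟨x, ⟨hx1, hx2⟩, hx3⟩ := exists_cut h1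
  refine ⟨q2, hq2.trans hq1, x, fun x' hx' => hdec ⟨x', (hx'.trans hx1.le)⟩, hx2, ?_⟩
  rw [← hx3]
  congr 1
  ext z
  simp only [mem_inter_iff, mem_ofPred_eq, mem_Iio]
  exact ⟨fun hz => ⟨⟨hz.1.trans hx1, hz.2⟩, hz.1⟩, fun hz => ⟨hz.2, hz.1.2⟩⟩

/-- An unbounded subset of `K` has the order type of `K`. -/
theorem ofType_of_unbounded (hκ0 : ℵ₀ ≤ κ) (hP : Closed κ P) (hK : Kap κ K) {S : K → Set P}
    (hS : ∀ x, Down (S x)) {q0 : P}
    (hun : ∀ r ≤ q0, ∀ y, ∃ r' ≤ r, ∃ x, y < x ∧ r' ∈ S x) : q0 ∈ OfType K S := by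
  refine mem_fex.2 fun q hq => ⟨q, le_rfl, en S, ⟨⟨?_, ?_⟩, ?_⟩, ?_⟩
  · intro w
    refine mem_fex.2 fun r hr => ?_
    obtain ⟨r', hr', x, hx⟩ := en_total hκ0 hP hK hS hun w r (hr.trans hq)
    exact ⟨r', hr', x, meets_of_mem hx⟩
  · intro w x x'
    refine mem_fimp.2 fun r _ h => ?_
    obtain ⟨r1, hr1, h1⟩ := exists_of_meets (down_en hS w x) h.1
    obtain ⟨r2, hr2, h2⟩ := exists_of_meets (down_en hS w x') (down_meets _ _ h.2 _ hr1)
    exact ⟨r2, hr2.trans hr1, en_eq (down_en hS w x _ h1 _ hr2) h2⟩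
  · intro w w' hw x x'
    refine mem_fimp.2 fun r _ h => ?_
    obtain ⟨r1, hr1, h1⟩ := exists_of_meets (down_en hS w x) h.1
    obtain ⟨r2, hr2, h2⟩ := exists_of_meets (down_en hS w' x') (down_meets _ _ h.2 _ hr1)
    exact ⟨r2, hr2.trans hr1, en_lt (down_en hS w x _ h1 _ hr2) h2 hw⟩
  · intro x
    refine ⟨fun w => mem_fimp.2 fun r _ h => ?_, mem_fimp.2 fun r _ h => ?_⟩
    · obtain ⟨r1, hr1, h1⟩ := exists_of_meets (down_en hS w x) h
      exact ⟨r1, hr1, meets_of_mem h1.2.1⟩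
    · obtain ⟨r1, hr1, h1⟩ := exists_of_meets (hS x) h
      obtain ⟨r2, hr2, hdec⟩ := decide hP (J := Iic x) (iic_small hκ0 hK x)
        (fun j => S j.1) (fun j => hS j.1) r1
      have h2 : ty {z | z < x ∧ r2 ∈ S z} < ty (univ : Set K) :=
        (ty_mono fun z hz => hz.1).trans_lt (ty_Iio_lt_univ x)
      obtain ⟨w, hw⟩ := exists_Iio h2
      refine ⟨r2, hr2.trans hr1, ?_⟩
      refine mem_fex.2 fun r3 hr3 => ⟨r3, le_rfl, w, meets_of_mem ?_⟩
      exact down_en hS w x _ ⟨fun x' hx' => hdec ⟨x', hx'⟩, hS x _ h1 _ hr2, hw.symm⟩ _ hr3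

/-- If the set of all `x` with colour `i` on `{x} × B` is unbounded then `c` has a homogeneous set
of colour `i` and type `κ`. -/
theorem homog_of_unbounded (hκ0 : ℵ₀ ≤ κ) (hP : Closed κ P) (hK : Kap κ K) (c : K → ℕ → Set P)
    (i : Bool) {B : Set ℕ} (hB : B.Infinite) {q0 : P}
    (hun : ∀ r ≤ q0, ∀ y, ∃ r' ≤ r, ∃ x, y < x ∧ ∀ n ∈ B, r' ∈ HasColour c x n i) :
    q0 ∈ Homog K c i := by
  have hcol : ∀ x n, Down (HasColour c x n i) := by
    intro x n
    cases i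
    · exact down_fnot _
    · exact down_meets _
  let S : K → Set P := fun x => {r | ∀ n ∈ B, r ∈ HasColour c x n i}
  have hS : ∀ x, Down (S x) := fun x p hp q hq n hn => hcol x n _ (hp n hn) _ hq
  refine mem_fex.2 fun q hq => ⟨q, le_rfl, S, mem_fex.2 fun q' hq' =>
    ⟨q', le_rfl, fun n => {_p | n ∈ B}, ?_, ?_, ?_⟩⟩
  · exact ofType_of_unbounded hκ0 hP hK hS fun r hr y => hun r ((hr.trans hq').trans hq) y
  · intro m
    obtain ⟨n, hn, hmn⟩ := hB.exists_gt m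
    exact mem_fex.2 fun r _ => ⟨r, le_rfl, n, hmn.le, meets_of_mem hn⟩
  · intro x n
    refine mem_fimp.2 fun r _ h => ?_
    obtain ⟨r1, hr1, h1⟩ := exists_of_meets (hS x) h.1
    obtain ⟨_, _, s, hs, _⟩ := h.2 r le_rfl
    exact ⟨r1, hr1, h1 n hs⟩

end Pool.Agent.Q213.LV
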