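import Mathlib
import Pool.Agent.Q213.LV.Enum

set_option autoImplicit false

namespace Pool.Agent.Q213.LV

open Cardinal Set
open Pool.Agent.Helper669.Forcing

variable {κ : Cardinal.{0}} {P : Type} [Preorder P] {K : Type} [LinearOrder K] [WellFoundedLT K]

omit [WellFoundedLT K] in
theorem Kap.nonempty (hκ0 : ℵ₀ < κ) (hK : Kap κ K) : Nonempty K := by
  obtain ⟨y, -⟩ := hK.bdd ∅ (by rw [mk_emptyCollection]; exact (aleph0_pos).trans hκ0)
  exact ⟨y⟩

omit [WellFoundedLT K] in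
theorem Kap.exists_gt (hκ0 : ℵ₀ < κ) (hK : Kap κ K) (x : K) : ∃ y, x < y := by
  obtain ⟨y, hy⟩ := hK.bdd {x} (by rw [mk_singleton]; exact one_lt_aleph0.trans hκ0)
  exact ⟨y, hy x rfl⟩

omit [WellFoundedLT K] in
theorem Kap.bdd' (hκ0 : ℵ₀ < κ) (hK : Kap κ K) (a y : K) (f : K → K) :
    ∃ y', y < y' ∧ ∀ w < a, f w < y' := by
  obtain ⟨y', hy'⟩ := hK.bdd (insert y (f '' Iio a)) (mk_insert_le.trans_lt
    (add_lt_of_lt hκ0.le (mk_image_le.trans_lt (hK.iio a)) (one_lt_aleph0.trans hκ0)))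
  exact ⟨y', hy' y (mem_insert _ _), fun w hw => hy' _ (mem_insert_of_mem _ ⟨w, hw, rfl⟩)⟩

theorem claim1 (hκ0 : ℵ₀ < κ) (hP : Closed κ P) (hK : Kap κ K) (c : K → ℕ → Set P) {p : P}
    (hp : p ∈ fnot (Homog K c false)) {q : P} (hq : q ≤ p) {B : Set ℕ} (hB : B.Infinite) :
    ∃ r ≤ q, ∃ y : K, ∀ x, y < x → ∀ r' ≤ r, ¬ ∀ n ∈ B, r' ∈ fnot (meets (c x n)) := by
  by_contra hcon
  push Not at hcon
  apply hp q hq
  apply homog_of_unbounded hκ0.le hP hK c false hB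
  intro r hr y
  obtain ⟨x, hx, r', hr', h⟩ := hcon r hr y
  exact ⟨r', hr', x, hx, h⟩

theorem claim2 (hκ0 : ℵ₀ < κ) (hP : Closed κ P) (hK : Kap κ K) (c : K → ℕ → Set P) {p : P}
    (hp : p ∈ fnot (Homog K c false)) {q : P} (hq : q ≤ p) {B : Set ℕ} (hB : B.Infinite) :
    ∃ r ≤ q, ∃ y : K, ∀ x, y < x → ∀ r' ≤ r, ∀ m, ¬ ∀ n ∈ B, m ≤ n →
      r' ∈ fnot (meets (c x n)) := by
  have := hK.nonempty hκ0
  obtain ⟨h, r, -, hr, q1, hq1, hqr⟩ := seq hP (J := ℕ) (Y := K) (by rw [mk_nat]; exact hκ0) q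
    (fun m _ y r => ∀ x, y < x → ∀ r' ≤ r, ¬ ∀ n ∈ B ∩ {n | m ≤ n}, r' ∈ fnot (meets (c x n)))
    (fun m _ q' hq' => by
      have hinf : (B ∩ {n | m ≤ n}).Infinite := by
        intro hfin
        apply hB
        refine (hfin.union (finite_lt_nat m)).subset ?_
        intro n hn
        by_cases h : m ≤ n
        · exact Or.inl ⟨hn, h⟩
        · exact Or.inr (not_le.1 h)
      obtain ⟨r, hr, y, hy⟩ := claim1 hκ0 hP hK c hp (hq'.trans hq) hinf
      exact ⟨r, hr, y, hy⟩)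
  obtain ⟨y1, hy1⟩ := hK.bdd (range h) (mk_range_le.trans_lt (by rw [mk_nat]; exact hκ0))
  refine ⟨q1, hq1, y1, fun x hx r' hr' m hcon => ?_⟩
  refine hr m x ((hy1 _ ⟨m, rfl⟩).trans hx) r' (hr'.trans (hqr m)) ?_
  intro n hn
  exact hcon n hn.1 hn.2

/-- `{x} × s` is forced to have colour `1`. -/
def pos (c : K → ℕ → Set P) (r : P) (s : Set ℕ) (x : K) : Prop := ∀ n ∈ s, r ∈ meets (c x n)

/-- The set of all `x` with colour `1` on `{x} × s` is forced to be unbounded. -/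
def Large (c : K → ℕ → Set P) (q : P) (s : Set ℕ) : Prop :=
  ∀ r ≤ q, ∀ y, ∃ r' ≤ r, ∃ x, y < x ∧ pos c r' s x

omit [LinearOrder K] [WellFoundedLT K] in
theorem pos.down {c : K → ℕ → Set P} {r r' : P} {s s' : Set ℕ} {x : K} (h : pos c r s x)
    (hr : r' ≤ r) (hs : s' ⊆ s) : pos c r' s' x :=
  fun n hn => down_meets _ _ (h n (hs hn)) _ hr

omit [WellFoundedLT K] in
theorem Large.down {c : K → ℕ → Set P} {q q' : P} {s s' : Set ℕ} (h : Large c q s)
    (hq : q' ≤ q) (hs : s' ⊆ s) : Large c q' s' := by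
  intro r hr y
  obtain ⟨r', hr', x, hx, h'⟩ := h r (hr.trans hq) y
  exact ⟨r', hr', x, hx, h'.down le_rfl hs⟩

theorem claim3 (hκ0 : ℵ₀ < κ) (hP : Closed κ P) (hK : Kap κ K) (c : K → ℕ → Set P) {p : P}
    (hp : p ∈ fnot (Homog K c false)) {q : P} (hq : q ≤ p) {B : Set ℕ} (hB : B.Infinite)
    {s : Set ℕ} (hs : Large c q s) : ∃ r ≤ q, ∃ n ∈ B, Large c r (insert n s) := by
  by_contra hcon
  push Not at hcon
  have := hK.nonempty hκ0
  obtain ⟨y0⟩ := hK.nonempty hκ0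
  obtain ⟨h, r, -, hr, q1, hq1, hqr⟩ := seq hP (J := ℕ) (Y := K) (by rw [mk_nat]; exact hκ0) q
    (fun n _ y r => n ∈ B → ∀ r' ≤ r, ∀ x, y < x → ¬ pos c r' (insert n s) x)
    (fun n _ q' hq' => by
      by_cases hn : n ∈ B
      · have h1 := hcon q' hq' n hn
        unfold Large at h1
        push Not at h1
        obtain ⟨r, hr, y, hy⟩ := h1
        exact ⟨r, hr, y, fun _ r' hr' x hx => hy r' hr' x hx⟩
      · exact ⟨q', le_rfl, y0, fun h => absurd h hn⟩)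
  obtain ⟨y1, hy1⟩ := hK.bdd (range h) (mk_range_le.trans_lt (by rw [mk_nat]; exact hκ0))
  obtain ⟨q2, hq2, y2, hy2⟩ := claim2 hκ0 hP hK c hp (hq1.trans hq) hB
  obtain ⟨q3, hq3, x, hx, hpos⟩ := hs q2 (hq2.trans hq1) (max y1 y2)
  have h1 := hy2 x ((le_max_right _ _).trans_lt hx) q3 hq3 0
  push Not at h1
  obtain ⟨n, hn, -, hn'⟩ := h1
  simp only [fnot, mem_ofPred_eq, not_forall, not_not] at hn'
  obtain ⟨q4, hq4, h4⟩ := hn'
  refine hr n hn q4 ((hq4.trans (hq3.trans hq2)).trans (hqr n)) x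
    (((hy1 _ ⟨n, rfl⟩).trans_le (le_max_left _ _)).trans hx) ?_
  rintro k (rfl | hk)
  · exact h4
  · exact down_meets _ _ (hpos k hk) _ hq4

theorem claim4 (hκ0 : ℵ₀ < κ) (hP : Closed κ P) (hK : Kap κ K) (c : K → ℕ → Set P) {p : P}
    (hp : p ∈ fnot (Homog K c false)) :
    ∃ q ≤ p, ∃ B0 : Set ℕ, B0.Infinite ∧ ∀ s ⊆ B0, s.Finite → Large c q s := by
  obtain ⟨h, r, hanti, hr, q1, hq1, hqr⟩ := seq hP (J := ℕ) (Y := ℕ) (by rw [mk_nat]; exact hκ0) p
    (fun j h y r => (∀ j', h j' < y) ∧ (Large c r (range h) → Large c r (insert y (range h))))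
    (fun j h q' hq' => by
      obtain ⟨m, hm⟩ : ∃ m, ∀ j', h j' < m := by
        obtain ⟨m, hm⟩ := (finite_range h).bddAbove
        exact ⟨m + 1, fun j' => Nat.lt_succ_of_le (hm ⟨j', rfl⟩)⟩
      by_cases hL : Large c q' (range h)
      · obtain ⟨r, hr, n, hn, h'⟩ := claim3 hκ0 hP hK c hp hq' (Set.Ioi_infinite m) hL
        exact ⟨r, hr, n, fun j' => (hm j').trans hn, fun _ => h'⟩
      · exact ⟨q', le_rfl, m, hm, fun h => absurd h hL⟩)
  have hrange : ∀ j, range (fun j' : Iio j => h j'.1) = h '' Iio j := by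
    intro j
    ext n
    simp
  have hL : ∀ j, Large c (r j) (h '' Iic j) := by
    intro j
    induction j with
    | zero =>
      have h0 : Large c (r 0) (range fun j' : Iio 0 => h j'.1) := by
        intro r' _ y
        obtain ⟨x, hx⟩ := hK.exists_gt hκ0 y
        refine ⟨r', le_rfl, x, hx, ?_⟩
        rintro _ ⟨⟨j', hj'⟩, -⟩
        exact absurd hj' (Nat.not_lt_zero _)
      refine ((hr 0).2 h0).down le_rfl ?_
      rintro _ ⟨k, hk, rfl⟩
      have : k = 0 := Nat.le_zero.1 hk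
      subst this
      exact mem_insert _ _
    | succ j ih =>
      have h0 : Large c (r (j + 1)) (range fun j' : Iio (j + 1) => h j'.1) := by
        rw [hrange]
        refine ih.down (hanti j (j + 1) (Nat.lt_succ_self j)) ?_
        rintro _ ⟨k, hk, rfl⟩
        exact ⟨k, Nat.lt_succ_iff.1 hk, rfl⟩
      refine ((hr (j + 1)).2 h0).down le_rfl ?_
      rintro _ ⟨k, hk, rfl⟩
      rcases (show k ≤ j + 1 from hk).lt_or_eq with hk | rfl
      · exact mem_insert_of_mem _ ⟨⟨k, hk⟩, rfl⟩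
      · exact mem_insert _ _
  have hmono : StrictMono h := fun i j hij => (hr j).1 ⟨i, hij⟩
  refine ⟨q1, hq1, range h, infinite_range_of_injective hmono.injective, ?_⟩
  intro s hs hfin
  obtain ⟨j, hj⟩ : ∃ j, s ⊆ h '' Iic j := by
    obtain ⟨m, hm⟩ := hfin.bddAbove
    refine ⟨m, fun n hn => ?_⟩
    obtain ⟨k, rfl⟩ := hs hn
    exact ⟨k, (hmono.id_le k).trans (hm hn), rfl⟩
  exact (hL j).down (hqr j) hj

theorem claim5 (hκ0 : ℵ₀ < κ) (hP : Closed κ P) (hK : Kap κ K) (c : K → ℕ → Set P) {p : P}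
    (hp : p ∈ fnot (Homog K c false)) {q : P} (hq : q ≤ p) {B : Set ℕ} (hB : B.Infinite)
    {s : Set ℕ} (hs : Large c q s) (y : K) :
    ∃ r ≤ q, ∃ x, y < x ∧ ∃ B' ⊆ B, B'.Infinite ∧ pos c r (s ∪ B') x := by
  obtain ⟨q2, hq2, y2, hy2⟩ := claim2 hκ0 hP hK c hp hq hB
  obtain ⟨q3, hq3, x, hx, hpos⟩ := hs q2 hq2 (max y y2)
  obtain ⟨q4, hq4, hdec⟩ := decide hP (J := ℕ) (by rw [mk_nat]; exact hκ0)
    (fun n => meets (c x n)) (fun n => down_meets _) q3
  refine ⟨q4, (hq4.trans hq3).trans hq2, x, (le_max_left _ _).trans_lt hx,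
    B ∩ {n | q4 ∈ meets (c x n)}, inter_subset_left, ?_, ?_⟩
  · intro hfin
    obtain ⟨m, hm⟩ := hfin.bddAbove
    refine hy2 x ((le_max_right _ _).trans_lt hx) q4 (hq4.trans hq3) (m + 1) ?_
    intro n hn hmn
    rcases hdec n with h | h
    · have := hm ⟨hn, h⟩
      omega
    · exact h
  · rintro n (hn | hn)
    · exact down_meets _ _ (hpos n hn) _ hq4
    · exact hn.2

/-- `f` is increasing on the elements below `a`, with values above `y`, and the colour is `1` on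
the product of its range and `s ∪ B`. -/
def Good (c : K → ℕ → Set P) (r : P) (f : K → K) (a y : K) (s B : Set ℕ) : Prop :=
  (∀ w < a, y < f w) ∧ (∀ w w', w < w' → w' < a → f w < f w') ∧ ∀ w < a, pos c r (s ∪ B) (f w)

end Pool.Agent.Q213.LV
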