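import Mathlib
import Pool.Agent.Q213.LV.Base

/-!
# Distributivity of the product of a closed forcing and `P(ω)/fin`
-/

set_option autoImplicit false

namespace Pool.Agent.Q213.LV

open Cardinal Set

/-- The intersection of a family of dense open families indexed by `J` is dense. -/
def Dist (J : Type) : Prop :=
  ∀ E : J → Set (Set ℕ), (∀ i, OpenDense (E i)) → ∀ B : Set ℕ, B.Infinite →
    ∃ B' ⊆ B, B'.Infinite ∧ ∀ i, B' ∈ E i

theorem dist_of_lt {J : Type} (hJ : #J < hNum) : Dist J := by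
  intro E hE B hB
  by_contra hcon
  push Not at hcon
  have h1 : #(range E) ∈ {μ | ∃ 𝒟 : Set (Set (Set ℕ)), #𝒟 = μ ∧ (∀ D ∈ 𝒟, OpenDense D) ∧
      ∃ B : Set ℕ, B.Infinite ∧ ∀ B' ⊆ B, B'.Infinite → ∃ D ∈ 𝒟, B' ∉ D} := by
    refine ⟨range E, rfl, ?_, B, hB, fun B' hB' hinf => ?_⟩
    · rintro _ ⟨i, rfl⟩
      exact hE i
    · obtain ⟨i, hi⟩ := hcon B' hB' hinf
      exact ⟨E i, ⟨i, rfl⟩, hi⟩
  have h2 : hNum ≤ #(range E) := csInf_le' h1
  exact absurd hJ (not_lt.2 (h2.trans mk_range_le))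

theorem Dist.mono {J J' : Type} (h : Dist J) (g : J' ↪ J) : Dist J' := by
  classical
  intro E hE B hB
  rcases isEmpty_or_nonempty J' with he | hne
  · exact ⟨B, Subset.rfl, hB, fun i => (he.false i).elim⟩
  obtain ⟨B', hB', hinf, h'⟩ := h (fun j => E (Function.invFun g j)) (fun j => hE _) B hB
  refine ⟨B', hB', hinf, fun i => ?_⟩
  have := h' (g i)
  rwa [Function.leftInverse_invFun g.injective i] at this

/-- A maximal almost disjoint subfamily of a family of infinite sets. -/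
theorem exists_mad (D : Set (Set ℕ)) :
    ∃ 𝒲 ⊆ D, (∀ W ∈ 𝒲, ∀ W' ∈ 𝒲, (W ∩ W').Infinite → W = W') ∧
      ∀ B ∈ D, B.Infinite → ∃ W ∈ 𝒲, (B ∩ W).Infinite := by
  classical
  obtain ⟨𝒲, h𝒲⟩ := zorn_subset
    {𝒲 : Set (Set ℕ) | 𝒲 ⊆ D ∧ ∀ W ∈ 𝒲, ∀ W' ∈ 𝒲, (W ∩ W').Infinite → W = W'}
    (fun c hc hch => by
      refine ⟨⋃₀ c, ⟨?_, ?_⟩, fun s hs => subset_sUnion_of_mem hs⟩
      · exact sUnion_subset fun s hs => (hc hs).1
      · rintro W ⟨s, hs, hW⟩ W' ⟨s', hs', hW'⟩ hinf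
        rcases hch.total hs hs' with h | h
        · exact (hc hs').2 W (h hW) W' hW' hinf
        · exact (hc hs).2 W hW W' (h hW') hinf)
  refine ⟨𝒲, h𝒲.prop.1, h𝒲.prop.2, fun B hB hinf => ?_⟩
  by_contra hcon
  push Not at hcon
  have hins : insert B 𝒲 ∈ {𝒲 : Set (Set ℕ) | 𝒲 ⊆ D ∧
      ∀ W ∈ 𝒲, ∀ W' ∈ 𝒲, (W ∩ W').Infinite → W = W'} := by
    refine ⟨insert_subset hB h𝒲.prop.1, ?_⟩
    rintro W (rfl | hW) W' (rfl | hW') h
    · rfl
    · exact absurd (hcon W' hW') h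
    · rw [inter_comm] at h
      exact absurd (hcon W hW) h
    · exact h𝒲.prop.2 W hW W' hW' h
  have hmem : B ∈ 𝒲 := h𝒲.le_of_ge hins (subset_insert B 𝒲) (mem_insert B 𝒲)
  have := hcon B hmem
  rw [inter_self] at this
  exact hinf this

theorem prodDist {κ : Cardinal.{0}} {P : Type} [Preorder P] (hP : Closed κ P)
    {K : Type} [LinearOrder K] [WellFoundedLT K] (hsm : ∀ x : K, #(Iio x) < κ)
    (a : K) (hd : Dist (Iio a))
    {Y : Type} [Nonempty Y] (q0 : P) {B0 : Set ℕ} (hB0 : B0.Infinite)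
    (Ψ : (i : K) → (Iio i → Y) → Y → P → Set ℕ → Prop)
    (hΨ : ∀ i < a, ∀ h, ∀ q ≤ q0, ∀ B ⊆ B0, B.Infinite →
      ∃ r ≤ q, ∃ y, ∃ B' ⊆ B, B'.Infinite ∧ Ψ i h y r B') :
    ∃ (h : K → Y) (q : P) (B : Set ℕ), q ≤ q0 ∧ B ⊆ B0 ∧ B.Infinite ∧
      ∀ i < a, ∃ (r : P) (W : Set ℕ), q ≤ r ∧ (B \ W).Finite ∧ W ⊆ B0 ∧
        Ψ i (fun j => h j.1) (h i) r W := by
  classical
  obtain ⟨y0⟩ := ‹Nonempty Y›
  let Dset : (i : K) → (Iio i → P × Y) → Set (Set ℕ) := fun i H =>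
    {B | B.Infinite ∧ B ⊆ B0 ∧ ∃ z : P × Y, z.1 ≤ q0 ∧ (∀ j, z.1 ≤ (H j).1) ∧
      Ψ i (fun j => (H j).2) z.2 z.1 B}
  choose 𝒲 h𝒲D h𝒲ad h𝒲max using fun (i : K) (H : Iio i → P × Y) => exists_mad (Dset i H)
  let wit : (i : K) → (Iio i → P × Y) → Set ℕ → P × Y := fun i H W =>
    if h : ∃ z : P × Y, z.1 ≤ q0 ∧ (∀ j, z.1 ≤ (H j).1) ∧
      Ψ i (fun j => (H j).2) z.2 z.1 W then h.choose else (q0, y0)
  have hwit : ∀ i H W, W ∈ 𝒲 i H → (wit i H W).1 ≤ q0 ∧ (∀ j, (wit i H W).1 ≤ (H j).1) ∧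
      Ψ i (fun j => (H j).2) (wit i H W).2 (wit i H W).1 W := by
    intro i H W hW
    have hex := (h𝒲D i H hW).2.2
    have h1 : wit i H W = hex.choose := dif_pos hex
    rw [h1]
    exact hex.choose_spec
  let step : (i : K) → (Iio i → P × Y) → Set ℕ → P × Y := fun i H B =>
    if h : ∃ W ∈ 𝒲 i H, (B \ W).Finite then wit i H h.choose else (q0, y0)
  let run : Set ℕ → K → P × Y := fun B =>
    (wellFounded_lt (α := K)).fix fun i H => step i (fun j => H j.1 j.2) B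
  have hrun : ∀ B i, run B i = step i (fun j => run B j.1) B :=
    fun B i => (wellFounded_lt (α := K)).fix_eq _ _
  let OK : K → Set ℕ → Prop := fun i B => ∃ W ∈ 𝒲 i (fun j => run B j.1), (B \ W).Finite
  -- what `OK` gives
  have hOK : ∀ B : Set ℕ, B.Infinite → ∀ i, ∀ W ∈ 𝒲 i (fun j => run B j.1), (B \ W).Finite →
      run B i = wit i (fun j => run B j.1) W := by
    intro B hB i W hW hfin
    have hex : ∃ W ∈ 𝒲 i (fun j => run B j.1), (B \ W).Finite := ⟨W, hW, hfin⟩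
    have h1 : run B i = wit i (fun j => run B j.1) hex.choose := by
      rw [hrun]
      exact dif_pos hex
    rw [h1]
    congr 1
    refine h𝒲ad i _ _ hex.choose_spec.1 W hW ?_
    intro hcon
    apply hB
    refine ((hfin.union hex.choose_spec.2).union hcon).subset ?_
    intro x hx
    by_cases h2 : x ∈ W
    · by_cases h3 : x ∈ hex.choose
      · exact Or.inr ⟨h3, h2⟩
      · exact Or.inl (Or.inr ⟨hx, h3⟩)
    · exact Or.inl (Or.inl ⟨hx, h2⟩)
  -- smaller sets have the same run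
  have R1 : ∀ B B' : Set ℕ, B.Infinite → B'.Infinite → (B' \ B).Finite → ∀ j, (∀ k ≤ j, OK k B) →
      run B' j = run B j ∧ OK j B' := by
    intro B B' hB hB' hfin j
    induction j using (wellFounded_lt (α := K)).induction with
    | _ j ih =>
    intro hk
    have hhist : (fun k : Iio j => run B' k.1) = fun k : Iio j => run B k.1 :=
      funext fun k => (ih k.1 k.2 fun l hl => hk l (hl.trans (le_of_lt k.2))).1
    obtain ⟨W, hW, hWfin⟩ := hk j le_rfl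
    have hWfin' : (B' \ W).Finite := by
      refine (hfin.union hWfin).subset ?_
      intro x hx
      by_cases h2 : x ∈ B
      · exact Or.inr ⟨h2, hx.2⟩
      · exact Or.inl ⟨hx.1, h2⟩
    have hW' : W ∈ 𝒲 j (fun k => run B' k.1) := by
      rw [hhist]
      exact hW
    refine ⟨?_, W, hW', hWfin'⟩
    rw [hOK B hB j W hW hWfin, hOK B' hB' j W hW' hWfin', hhist]
  let E : K → Set (Set ℕ) := fun i =>
    {B | B.Infinite ∧ ((B ∩ B0).Finite ∨ ((B \ B0).Finite ∧ ∀ j ≤ i, OK j B))}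
  have hchain : ∀ B : Set ℕ, B.Infinite → ∀ i, OK i B → (run B i).1 ≤ q0 ∧
      (∀ j < i, (run B i).1 ≤ (run B j).1) ∧ ∃ W, (B \ W).Finite ∧ W ⊆ B0 ∧
        Ψ i (fun j => (run B j.1).2) (run B i).2 (run B i).1 W := by
    rintro B hB i ⟨W, hW, hfin⟩
    have h1 := hwit i _ W hW
    rw [← hOK B hB i W hW hfin] at h1
    exact ⟨h1.1, fun j hj => h1.2.1 ⟨j, hj⟩, W, hfin, (h𝒲D i _ hW).2.1, h1.2.2⟩
  have hEopen : ∀ i, ∀ B ∈ E i, ∀ B' : Set ℕ, B'.Infinite → (B' \ B).Finite → B' ∈ E i := by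
    rintro i B ⟨hB, h⟩ B' hB' hfin
    refine ⟨hB', ?_⟩
    rcases h with h | ⟨h, h'⟩
    · left
      refine (h.union hfin).subset ?_
      intro x hx
      by_cases h2 : x ∈ B
      · exact Or.inl ⟨h2, hx.2⟩
      · exact Or.inr ⟨hx.1, h2⟩
    · right
      refine ⟨(h.union hfin).subset ?_, fun j hj => ?_⟩
      · intro x hx
        by_cases h2 : x ∈ B
        · exact Or.inl ⟨h2, hx.2⟩
        · exact Or.inr ⟨hx.1, h2⟩
      · exact (R1 B B' hB hB' hfin j fun k hk => h' k (hk.trans hj)).2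
  have hEdense : ∀ i, i < a → ∀ B : Set ℕ, B.Infinite → ∃ B' ⊆ B, B' ∈ E i := by
    intro i
    induction i using (wellFounded_lt (α := K)).induction with
    | _ i ih =>
    intro hi B hB
    by_cases hfin : (B ∩ B0).Finite
    · exact ⟨B, Subset.rfl, hB, Or.inl hfin⟩
    have hd' : Dist (Iio i) := hd.mono ⟨fun j => ⟨j.1, lt_trans j.2 hi⟩, fun j k h => by
      have := congrArg (fun z : Iio a => z.1) h
      exact Subtype.ext this⟩
    obtain ⟨B2, hB2, hB2inf, hB2E⟩ := hd' (fun j => E j.1) (fun j =>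
      ⟨fun B hB => hB.1, hEopen j.1, ih j.1 j.2 (lt_trans j.2 hi)⟩) (B ∩ B0) hfin
    have hB20 : B2 ∩ B0 = B2 := inter_eq_left.2 (hB2.trans inter_subset_right)
    have hOK2 : ∀ j < i, OK j B2 := by
      intro j hj
      rcases (hB2E ⟨j, hj⟩).2 with h | h
      · rw [hB20] at h
        exact absurd h hB2inf
      · exact h.2 j le_rfl
    obtain ⟨q, hq, hqr⟩ := hP (Iio i) (hsm i) q0 (fun j => (run B2 j.1).1)
      (fun j => (hchain B2 hB2inf j.1 (hOK2 j.1 j.2)).1) (fun j k => by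
        rcases lt_trichotomy j.1 k.1 with h | h | h
        · exact Or.inr ((hchain B2 hB2inf k.1 (hOK2 k.1 k.2)).2.1 j.1 h)
        · rw [h]
          exact Or.inl le_rfl
        · exact Or.inl ((hchain B2 hB2inf j.1 (hOK2 j.1 j.2)).2.1 k.1 h))
    obtain ⟨r, hr, y, B3, hB3, hB3inf, hB3Ψ⟩ := hΨ i hi (fun j => (run B2 j.1).2) q hq B2
      (hB2.trans inter_subset_right) hB2inf
    have hB3D : B3 ∈ Dset i (fun j => run B2 j.1) :=
      ⟨hB3inf, (hB3.trans hB2).trans inter_subset_right, (r, y), hr.trans hq,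
        fun j => hr.trans (hqr j), hB3Ψ⟩
    obtain ⟨W, hW, hWinf⟩ := h𝒲max i _ B3 hB3D hB3inf
    have hsub : B3 ∩ W ⊆ B2 := inter_subset_left.trans hB3
    have hfin4 : ((B3 ∩ W) \ B2).Finite := by
      rw [sdiff_eq_empty.2 hsub]
      exact finite_empty
    have hlow : ∀ j < i, run (B3 ∩ W) j = run B2 j ∧ OK j (B3 ∩ W) := fun j hj =>
      R1 B2 (B3 ∩ W) hB2inf hWinf hfin4 j fun k hk => hOK2 k (hk.trans_lt hj)
    have hhist : (fun k : Iio i => run (B3 ∩ W) k.1) = fun k : Iio i => run B2 k.1 :=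
      funext fun k => (hlow k.1 k.2).1
    refine ⟨B3 ∩ W, hsub.trans (hB2.trans inter_subset_left), hWinf, Or.inr ⟨?_, ?_⟩⟩
    · rw [sdiff_eq_empty.2 (hsub.trans (hB2.trans inter_subset_right))]
      exact finite_empty
    · intro j hj
      rcases hj.lt_or_eq with hj | rfl
      · exact (hlow j hj).2
      · refine ⟨W, ?_, ?_⟩
        · rw [hhist]
          exact hW
        · rw [sdiff_eq_empty.2 inter_subset_right]
          exact finite_empty
  obtain ⟨B, hB, hBinf, hBE⟩ := hd (fun j => E j.1) (fun j =>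
    ⟨fun B hB => hB.1, hEopen j.1, hEdense j.1 j.2⟩) B0 hB0
  have hB0' : B ∩ B0 = B := inter_eq_left.2 hB
  have hOKB : ∀ j < a, OK j B := by
    intro j hj
    rcases (hBE ⟨j, hj⟩).2 with h | h
    · rw [hB0'] at h
      exact absurd h hBinf
    · exact h.2 j le_rfl
  obtain ⟨q, hq, hqr⟩ := hP (Iio a) (hsm a) q0 (fun j => (run B j.1).1)
    (fun j => (hchain B hBinf j.1 (hOKB j.1 j.2)).1) (fun j k => by
      rcases lt_trichotomy j.1 k.1 with h | h | h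
      · exact Or.inr ((hchain B hBinf k.1 (hOKB k.1 k.2)).2.1 j.1 h)
      · rw [h]
        exact Or.inl le_rfl
      · exact Or.inl ((hchain B hBinf j.1 (hOKB j.1 j.2)).2.1 k.1 h))
  refine ⟨fun j => (run B j).2, q, B, hq, hB, hBinf, fun i hi => ?_⟩
  obtain ⟨-, -, W, h1, h2, h3⟩ := hchain B hBinf i (hOKB i hi)
  exact ⟨(run B i).1, W, hqr ⟨i, hi⟩, h1, h2, h3⟩

end Pool.Agent.Q213.LV
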