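import Mathlib
import Pool.Agent.Q213.LV.Claims
import Pool.Agent.Q213.LV.Dist

set_option autoImplicit false

namespace Pool.Agent.Q213.LV

open Cardinal Set
open Pool.Agent.Helper669.Forcing

variable {κ : Cardinal.{0}} {P : Type} [Preorder P] {K : Type} [LinearOrder K] [WellFoundedLT K]

/-- The induction hypothesis. -/
def Hyp (c : K → ℕ → Set P) (q0 : P) (B0 : Set ℕ) (a : K) : Prop :=
  ∀ q ≤ q0, ∀ s ⊆ B0, s.Finite → ∀ B ⊆ B0, B.Infinite → ∀ y : K,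
    ∃ r ≤ q, ∃ f : K → K, ∃ B' ⊆ B, B'.Infinite ∧ Good c r f a y s B'

/-- The successor case. -/
theorem caseB (hκ0 : ℵ₀ < κ) (hP : Closed κ P) (hK : Kap κ K) (c : K → ℕ → Set P) {p : P}
    (hp : p ∈ fnot (Homog K c false)) {q0 : P} (hq0 : q0 ≤ p) {B0 : Set ℕ}
    (hL : ∀ s ⊆ B0, s.Finite → Large c q0 s) {a b : K} (hb : ∀ w < a, w ≤ b)
    (ih : Hyp c q0 B0 b) : Hyp c q0 B0 a := by
  classical
  intro q hq s hs hsfin B hB hBinf y
  obtain ⟨r1, hr1, f1, B1, hB1, hB1inf, h1, h2, h3⟩ := ih q hq s hs hsfin B hB hBinf y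
  obtain ⟨y', hy', hfy'⟩ := hK.bdd' hκ0 b y f1
  obtain ⟨r2, hr2, x, hx, B2, hB2, hB2inf, hpos⟩ := claim5 hκ0 hP hK c hp
    ((hr1.trans hq).trans hq0) hB1inf ((hL s hs hsfin).down (hr1.trans hq) Subset.rfl) y'
  refine ⟨r2, hr2.trans hr1, Function.update f1 b x, B2, hB2.trans hB1, hB2inf, ?_, ?_, ?_⟩
  · intro w hw
    rcases (hb w hw).lt_or_eq with hwb | rfl
    · rw [Function.update_of_ne hwb.ne]
      exact h1 w hwb
    · rw [Function.update_self]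
      exact hy'.trans hx
  · intro w w' hww' hw'
    rcases (hb w' hw').lt_or_eq with hwb | rfl
    · rw [Function.update_of_ne hwb.ne, Function.update_of_ne (hww'.trans hwb).ne]
      exact h2 w w' hww' hwb
    · rw [Function.update_self, Function.update_of_ne hww'.ne]
      exact (hfy' w hww').trans hx
  · intro w hw
    rcases (hb w hw).lt_or_eq with hwb | rfl
    · rw [Function.update_of_ne hwb.ne]
      exact (h3 w hwb).down hr2 (union_subset_union_right _ hB2)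
    · rw [Function.update_self]
      exact hpos

/-- The case of countable cofinality. -/
theorem caseC (hκ0 : ℵ₀ < κ) (hP : Closed κ P) (hK : Kap κ K) (c : K → ℕ → Set P)
    {q0 : P} {B0 : Set ℕ} {a : K} (e : ℕ → K) (hea : ∀ n, e n < a) (hecof : ∀ w < a, ∃ n, w < e n)
    (ih : ∀ b < a, Hyp c q0 B0 b) : Hyp c q0 B0 a := by
  classical
  intro q hq s hs hsfin B hB hBinf y
  let Valid : P × Set ℕ × Set ℕ × K → Prop := fun S =>
    S.1 ≤ q ∧ S.2.1 ⊆ B0 ∧ S.2.1.Finite ∧ S.2.2.1 ⊆ B ∧ S.2.2.1.Infinite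
  have step : ∀ (n : ℕ) (S : {S // Valid S}), ∃ (S' : {S // Valid S}) (f : K → K) (b : ℕ),
      S'.1.1 ≤ S.1.1 ∧ S'.1.2.2.1 ⊆ S.1.2.2.1 ∧ b ∈ S'.1.2.2.1 ∧ (∀ k ∈ S.1.2.1, k < b) ∧
      S'.1.2.1 = insert b S.1.2.1 ∧ S.1.2.2.2 < S'.1.2.2.2 ∧ (∀ w < e n, f w < S'.1.2.2.2) ∧
      Good c S'.1.1 f (e n) S.1.2.2.2 S.1.2.1 S'.1.2.2.1 := by
    rintro n ⟨⟨r, s', B', y'⟩, h1, h2, h3, h4, h5⟩
    obtain ⟨r1, hr1, f, B1, hB1, hB1inf, hgood⟩ :=
      ih (e n) (hea n) r (h1.trans hq) s' h2 h3 B' (h4.trans hB) h5 y'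
    obtain ⟨y1, hy1, hfy1⟩ := hK.bdd' hκ0 (e n) y' f
    obtain ⟨m, hm⟩ := h3.bddAbove
    obtain ⟨b, hb, hmb⟩ := hB1inf.exists_gt m
    refine ⟨⟨(r1, insert b s', B1, y1), hr1.trans h1, ?_, h3.insert b, hB1.trans h4, hB1inf⟩, f, b,
      hr1, hB1, hb, fun k hk => (hm hk).trans_lt hmb, rfl, hy1, hfy1, hgood⟩
    exact insert_subset (hB (h4 (hB1 hb))) h2
  choose nxt F bb h1 h2 h3 h4 h5 h6 h7 h8 using step
  let S : ℕ → {S // Valid S} := fun n =>
    Nat.rec ⟨(q, s, B, y), le_rfl, hs, hsfin, Subset.rfl, hBinf⟩ (fun n T => nxt n T) n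
  have hS : ∀ n, S (n + 1) = nxt n (S n) := fun n => rfl
  have hr : Antitone fun n => (S n).1.1 := antitone_nat_of_succ_le fun n => h1 n (S n)
  have hBanti : Antitone fun n => (S n).1.2.2.1 := antitone_nat_of_succ_le fun n => h2 n (S n)
  have hsmono : Monotone fun n => (S n).1.2.1 := monotone_nat_of_le_succ fun n => by
    change (S n).1.2.1 ⊆ (S (n + 1)).1.2.1
    rw [hS, h5]
    exact subset_insert _ _
  have hymono : Monotone fun n => (S n).1.2.2.2 := monotone_nat_of_le_succ fun n => (h6 n (S n)).le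
  let β : ℕ → ℕ := fun n => bb n (S n)
  have hβs : ∀ n, β n ∈ (S (n + 1)).1.2.1 := by
    intro n
    rw [hS, h5]
    exact mem_insert _ _
  have hβmono : StrictMono β := strictMono_nat_of_lt_succ fun n => h4 (n + 1) (S (n + 1)) _ (hβs n)
  obtain ⟨q1, hq1, hqr⟩ := hP ℕ (by rw [mk_nat]; exact hκ0) q (fun n => (S n).1.1)
    (fun n => (S n).2.1) (fun i j => by
      rcases le_total i j with h | h
      · exact Or.inr (hr h)
      · exact Or.inl (hr h))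
  let N : (w : K) → ℕ := fun w => if h : ∃ n, w < e n then Nat.find h else 0
  have hN : ∀ w < a, w < e (N w) := by
    intro w hw
    have hex := hecof w hw
    have : N w = Nat.find hex := dif_pos hex
    rw [this]
    exact Nat.find_spec hex
  have hNmin : ∀ w < a, ∀ n, w < e n → N w ≤ n := by
    intro w hw n hn
    have hex := hecof w hw
    have : N w = Nat.find hex := dif_pos hex
    rw [this]
    exact Nat.find_min' hex hn
  refine ⟨q1, hq1, fun w => F (N w) (S (N w)) w, range β, ?_,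
    infinite_range_of_injective hβmono.injective, ?_, ?_, ?_⟩
  · rintro _ ⟨n, rfl⟩
    exact (S (n + 1)).2.2.2.2.1 (h3 n (S n))
  · intro w hw
    exact lt_of_le_of_lt (hymono (Nat.zero_le (N w))) ((h8 (N w) (S (N w))).1 w (hN w hw))
  · intro w w' hww' hw'
    have hle : N w ≤ N w' := hNmin w (hww'.trans hw') _ (hww'.trans (hN w' hw'))
    rcases hle.lt_or_eq with hlt | heq
    · have hA := h7 (N w) (S (N w)) w (hN w (hww'.trans hw'))
      have hB := hymono (show N w + 1 ≤ N w' from hlt)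
      have hC := (h8 (N w') (S (N w'))).1 w' (hN w' hw')
      exact lt_trans (lt_of_lt_of_le hA hB) hC
    · change F (N w) (S (N w)) w < F (N w') (S (N w')) w'
      rw [heq]
      exact (h8 (N w') (S (N w'))).2.1 w w' hww' (hN w' hw')
  · intro w hw
    have hg := (h8 (N w) (S (N w))).2.2 w (hN w hw)
    rintro k (hk | ⟨n, rfl⟩)
    · have hk' : k ∈ (S (N w)).1.2.1 := hsmono (Nat.zero_le (N w)) hk
      exact down_meets _ _ (hg k (Or.inl hk')) _ (hqr (N w + 1))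
    · rcases Nat.lt_or_ge n (N w) with hlt | hge
      · have hk' : β n ∈ (S (N w)).1.2.1 := hsmono (show n + 1 ≤ N w from hlt) (hβs n)
        exact down_meets _ _ (hg _ (Or.inl hk')) _ (hqr (N w + 1))
      · have hk' : β n ∈ (S (N w + 1)).1.2.2.1 :=
          hBanti (show N w + 1 ≤ n + 1 by omega) (h3 n (S n))
        exact down_meets _ _ (hg _ (Or.inr hk')) _ (hqr (N w + 1))

/-- The case of uncountable cofinality. -/
theorem caseD (hκ0 : ℵ₀ < κ) (hP : Closed κ P) (hK : Kap κ K) (c : K → ℕ → Set P)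
    {q0 : P} {B0 : Set ℕ} {a : K} (hd : Dist (Iio a)) (hmax : ∀ w < a, ∃ i < a, w < i)
    (hcof : ∀ e : ℕ → K, (∀ n, e n < a) → ∃ w < a, ∀ n, e n ≤ w)
    (ih : ∀ b < a, Hyp c q0 B0 b) : Hyp c q0 B0 a := by
  classical
  intro q hq s hs hsfin B hB hBinf y
  have := hK.nonempty hκ0
  obtain ⟨h, q1, B1, hq1, hB1, hB1inf, hall⟩ := prodDist hP hK.iio a hd (Y := K → K) q hBinf
    (fun i h f r W => Good c r f i y s W ∧ ∀ j, ∀ w < j.1, ∀ w' < i, h j w < f w')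
    (fun i hi h q' hq' B' hB' hB'inf => by
      choose z hz using fun j : Iio i => hK.bdd' hκ0 j.1 y (h j)
      obtain ⟨y1, hy1⟩ := hK.bdd (insert y (range z)) (mk_insert_le.trans_lt
        (add_lt_of_lt hκ0.le (mk_range_le.trans_lt (hK.iio i)) (one_lt_aleph0.trans hκ0)))
      obtain ⟨r, hr, f, B'', hB'', hB''inf, hg1, hg2, hg3⟩ :=
        ih i hi q' (hq'.trans hq) s hs hsfin B' (hB'.trans hB) hB'inf y1
      refine ⟨r, hr, f, B'', hB'', hB''inf, ⟨fun w hw => (hy1 y (mem_insert _ _)).trans (hg1 w hw),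
        hg2, hg3⟩, ?_⟩
      intro j w hw w' hw'
      exact (((hz j).2 w hw).trans (hy1 _ (mem_insert_of_mem _ ⟨j, rfl⟩))).trans (hg1 w' hw'))
  let T : Finset ℕ → K → Prop := fun F i => i < a ∧ ∃ (r : P) (W : Set ℕ), q1 ≤ r ∧
    B1 \ W ⊆ F ∧ W ⊆ B ∧ Good c r (h i) i y s W ∧ ∀ j : Iio i, ∀ w < j.1, ∀ w' < i, h j w < h i w'
  have hT : ∀ i < a, ∃ F, T F i := by
    intro i hi
    obtain ⟨r, W, hr, hfin, hW, hg, hg'⟩ := hall i hi
    exact ⟨hfin.toFinset, hi, r, W, hr, by simp, hW, hg, hg'⟩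
  obtain ⟨F, hF⟩ : ∃ F, ∀ w < a, ∃ i, w < i ∧ T F i := by
    by_contra hcon
    push Not at hcon
    choose wF hwF hwF' using hcon
    obtain ⟨w, hw, hw'⟩ := hcof (fun n => wF ((Encodable.decode n).getD ∅)) fun n => hwF _
    obtain ⟨i, hi, hwi⟩ := hmax w hw
    obtain ⟨F, hF⟩ := hT i hi
    have h1 := hw' (Encodable.encode F)
    rw [Encodable.encodek] at h1
    exact hwF' F i (h1.trans_lt hwi) hF
  have hmin : ∀ w < a, ∃ i, w < i ∧ T F i ∧ ∀ j, w < j → T F j → i ≤ j := by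
    intro w hw
    obtain ⟨i, ⟨hi1, hi2⟩, hi3⟩ := (wellFounded_lt (α := K)).has_min
      {i | w < i ∧ T F i} (hF w hw)
    exact ⟨i, hi1, hi2, fun j hj1 hj2 => not_lt.1 fun hlt => hi3 j ⟨hj1, hj2⟩ hlt⟩
  choose! ι hι1 hι2 hι3 using hmin
  have hBF : ∀ W : Set ℕ, B1 \ W ⊆ F → B1 \ (F : Set ℕ) ⊆ W := by
    intro W hW x hx
    by_contra hcon
    exact hx.2 (hW ⟨hx.1, hcon⟩)
  refine ⟨q1, hq1, fun w => h (ι w) w, B1 \ F, sdiff_subset.trans hB1, ?_, ?_, ?_, ?_⟩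
  · exact hB1inf.sdiff F.finite_toSet
  · intro w hw
    obtain ⟨-, r, W, -, -, -, hg, -⟩ := hι2 w hw
    exact hg.1 w (hι1 w hw)
  · intro w w' hww' hw'
    have hw : w < a := hww'.trans hw'
    have hle : ι w ≤ ι w' := hι3 w hw _ (hww'.trans (hι1 w' hw')) (hι2 w' hw')
    obtain ⟨-, r, W, -, -, -, hg, hg'⟩ := hι2 w' hw'
    rcases hle.lt_or_eq with hlt | heq
    · exact hg' ⟨ι w, hlt⟩ w (hι1 w hw) w' (hι1 w' hw')
    · change h (ι w) w < h (ι w') w'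
      rw [heq]
      exact hg.2.1 w w' hww' (hι1 w' hw')
  · intro w hw
    obtain ⟨-, r, W, hr, hW, -, hg, -⟩ := hι2 w hw
    exact (hg.2.2 w (hι1 w hw)).down hr (union_subset_union_right _ (hBF W hW))

theorem hyp_all (hκ0 : ℵ₀ < κ) (hP : Closed κ P) (hK : Kap κ K) (c : K → ℕ → Set P) {p : P}
    (hp : p ∈ fnot (Homog K c false)) {q0 : P} (hq0 : q0 ≤ p) {B0 : Set ℕ}
    (hL : ∀ s ⊆ B0, s.Finite → Large c q0 s) (a : K) (hd : Dist (Iio a)) : Hyp c q0 B0 a := by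
  induction a using (wellFounded_lt (α := K)).induction with
  | _ a ih =>
  have ih' : ∀ b < a, Hyp c q0 B0 b := fun b hb => ih b hb
    (hd.mono ⟨fun j => ⟨j.1, lt_trans j.2 hb⟩, fun j k h => by
      have := congrArg (fun z : Iio a => z.1) h
      exact Subtype.ext this⟩)
  by_cases hmax : ∃ b < a, ∀ w < a, w ≤ b
  · obtain ⟨b, hb, hb'⟩ := hmax
    exact caseB hκ0 hP hK c hp hq0 hL hb' (ih' b hb)
  · by_cases hcof : ∃ e : ℕ → K, (∀ n, e n < a) ∧ ∀ w < a, ∃ n, w < e n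
    · obtain ⟨e, he, he'⟩ := hcof
      exact caseC hκ0 hP hK c e he he' ih'
    · push Not at hmax hcof
      exact caseD hκ0 hP hK c hd hmax (fun e he => hcof e he) ih'

/-- Ground model witnesses. -/
theorem homog_ground {W : Type} [LinearOrder W] (c : K → ℕ → Set P) (i : Bool) (f : W → K)
    (hf : ∀ w w', w < w' → f w < f w') {B : Set ℕ} (hB : B.Infinite) {r : P}
    (h : ∀ w, ∀ n ∈ B, r ∈ HasColour c (f w) n i) : r ∈ Homog W c i := by
  have hcol : ∀ x n, Down (HasColour c x n i) := by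
    intro x n
    cases i
    · exact down_fnot _
    · exact down_meets _
  have hinj : ∀ w w', f w = f w' → w = w' := by
    intro w w' h
    rcases lt_trichotomy w w' with h' | h' | h'
    · exact absurd h (hf _ _ h').ne
    · exact h'
    · exact absurd h (hf _ _ h').ne'
  have hm : ∀ {h : Prop} {q : P}, q ∈ meets (fground h) ↔ h := by
    intro h q
    constructor
    · intro hq
      obtain ⟨_, _, _, hs, _⟩ := hq q le_rfl
      exact hs
    · intro h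
      exact meets_of_mem h
  refine mem_fex.2 fun q hq => ⟨q, le_rfl, fun x => fground (∃ w, f w = x), mem_fex.2
    fun q' hq' => ⟨q', le_rfl, fun n => fground (n ∈ B), mem_fex.2 fun q'' hq'' => ⟨q'', le_rfl,
      fun w x => fground (f w = x), ⟨⟨?_, ?_⟩, ?_⟩, ?_⟩, ?_, ?_⟩⟩
  · intro w
    exact mem_fex.2 fun r1 _ => ⟨r1, le_rfl, f w, hm.2 rfl⟩
  · intro w x x'
    refine mem_fimp.2 fun r1 _ h1 => ⟨r1, le_rfl, ?_⟩
    exact (hm.1 h1.1).symm.trans (hm.1 h1.2)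
  · intro w w' hww' x x'
    refine mem_fimp.2 fun r1 _ h1 => ⟨r1, le_rfl, ?_⟩
    have h2 := hf w w' hww'
    rw [hm.1 h1.1, hm.1 h1.2] at h2
    exact h2
  · intro x
    refine ⟨fun w => mem_fimp.2 fun r1 _ h1 => ⟨r1, le_rfl, hm.2 ⟨w, hm.1 h1⟩⟩,
      mem_fimp.2 fun r1 _ h1 => ⟨r1, le_rfl, ?_⟩⟩
    obtain ⟨w, hw⟩ := hm.1 h1
    exact mem_fex.2 fun r2 _ => ⟨r2, le_rfl, w, hm.2 hw⟩
  · intro m
    obtain ⟨n, hn, hmn⟩ := hB.exists_gt m
    exact mem_fex.2 fun r1 _ => ⟨r1, le_rfl, n, hmn.le, hm.2 hn⟩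
  · intro x n
    refine mem_fimp.2 fun r1 hr1 h1 => ⟨r1, le_rfl, ?_⟩
    obtain ⟨w, rfl⟩ := hm.1 h1.1
    exact hcol _ _ _ (h w n (hm.1 h1.2)) _ ((hr1.trans hq').trans hq)

/-- The first part. -/
theorem unbalanced (hκ0 : ℵ₀ < κ) (hP : Closed κ P) (hK : Kap κ K) (a : K) (hd : Dist (Iio a))
    (p : P) : p ∈ Unbalanced P K (Iio a) := by
  intro c q _ hq
  obtain ⟨q0, hq0, B0, hB0, hL⟩ := claim4 hκ0 hP hK c hq.1
  obtain ⟨r, hr, f, B', hB', hB'inf, hg⟩ := hyp_all hκ0 hP hK c hq.1 hq0 hL a hd q0 le_rfl ∅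
    (empty_subset _) finite_empty B0 Subset.rfl hB0 a
  refine hq.2 r (hr.trans hq0) ?_
  refine homog_ground (W := Iio a) c true (fun w => f w.1)
    (fun w w' hww' => hg.2.1 w.1 w'.1 hww' w'.2) hB'inf ?_
  intro w n hn
  exact hg.2.2 w.1 w.2 n (Or.inr hn)

/-- The second part. -/
theorem strong (hκ0 : ℵ₀ < κ) (hP : Closed κ P) (hK : Kap κ K) (hr : rNum < κ)
    (p : P) : p ∈ Strong P K := by
  classical
  have := hK.nonempty hκ0
  intro c
  obtain ⟨ℛ, hℛ, hinf, hreap⟩ : ∃ ℛ : Set (Set ℕ), #ℛ = rNum ∧ (∀ B ∈ ℛ, B.Infinite) ∧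
      ∀ X : Set ℕ, ∃ B ∈ ℛ, (B \ X).Finite ∨ (B ∩ X).Finite := by
    refine csInf_mem (s := {μ | ∃ ℛ : Set (Set ℕ), #ℛ = μ ∧ (∀ B ∈ ℛ, B.Infinite) ∧
      ∀ X : Set ℕ, ∃ B ∈ ℛ, (B \ X).Finite ∨ (B ∩ X).Finite}) ?_
    refine ⟨_, {B | B.Infinite}, rfl, fun B hB => hB, fun X => ?_⟩
    by_cases hX : X.Infinite
    · exact ⟨X, hX, Or.inl (by simp)⟩
    · refine ⟨Xᶜ, (not_infinite.1 hX).infinite_compl, Or.inr (by simp)⟩
  refine mem_fex.2 fun q _ => ?_
  by_contra hcon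
  push Not at hcon
  let J := (#(ℛ × ℕ × Bool)).ord.ToType
  have hJmk : #J = #(ℛ × ℕ × Bool) := mk_ord_toType _
  obtain ⟨e⟩ := Cardinal.eq.1 hJmk
  have hJ : #J < κ := by
    rw [hJmk, mk_prod, lift_id, lift_id]
    refine mul_lt_of_lt hκ0.le (by rw [hℛ]; exact hr) ?_
    exact mk_le_aleph0.trans_lt hκ0
  obtain ⟨h, r, -, hr', q1, hq1, hqr⟩ := seq hP (J := J) (Y := K) hJ q
    (fun j _ y r => ∀ x, y < x → ∀ r' ≤ r,
      ¬ ∀ n ∈ (e j).1.1 ∩ {n | (e j).2.1 ≤ n}, r' ∈ HasColour c x n (e j).2.2)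
    (fun j _ q' hq' => by
      have hBinf : ((e j).1.1 ∩ {n | (e j).2.1 ≤ n}).Infinite := by
        intro hfin
        apply hinf _ (e j).1.2
        refine (hfin.union (finite_lt_nat (e j).2.1)).subset ?_
        intro n hn
        by_cases h : (e j).2.1 ≤ n
        · exact Or.inl ⟨hn, h⟩
        · exact Or.inr (not_le.1 h)
      by_contra hno
      push Not at hno
      refine hcon q' hq' (e j).2.2 (homog_of_unbounded hκ0.le hP hK c _ hBinf ?_)
      intro r hr y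
      obtain ⟨x, hx, r', hr', h⟩ := hno r hr y
      exact ⟨r', hr', x, hx, h⟩)
  obtain ⟨y1, hy1⟩ := hK.bdd (range h) (mk_range_le.trans_lt hJ)
  obtain ⟨x, hx⟩ := hK.exists_gt hκ0 y1
  obtain ⟨q2, hq2, hdec⟩ := decide hP (J := ℕ) (by rw [mk_nat]; exact hκ0)
    (fun n => meets (c x n)) (fun n => down_meets _) q1
  obtain ⟨B, hB, hX⟩ := hreap {n | q2 ∈ meets (c x n)}
  have key : ∀ (m : ℕ) (i : Bool), ¬ ∀ n ∈ B, m ≤ n → q2 ∈ HasColour c x n i := by
    intro m i hh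
    have h1 := hr' (e.symm (⟨B, hB⟩, m, i)) x ((hy1 _ ⟨_, rfl⟩).trans hx) q2
      (hq2.trans (hqr _))
    rw [e.apply_symm_apply] at h1
    exact h1 fun n hn => hh n hn.1 hn.2
  rcases hX with hX | hX
  · obtain ⟨m, hm⟩ := hX.bddAbove
    refine key (m + 1) true fun n hn hmn => ?_
    by_contra hcon'
    have := hm ⟨hn, hcon'⟩
    omega
  · obtain ⟨m, hm⟩ := hX.bddAbove
    refine key (m + 1) false fun n hn hmn => ?_
    rcases hdec n with h | h
    · have := hm ⟨hn, h⟩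
      omega
    · exact h

end Pool.Agent.Q213.LV
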