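import Mathlib
import Pool.Agent.Q213.LV.Main

/-!
# Failure of the relations
-/

set_option autoImplicit false

namespace Pool.Agent.Q213.LV

open Cardinal Set
open Pool.Agent.Helper669.Forcing

/-- A set splitting all infinite members of a family of fewer than `𝔯` sets. -/
theorem exists_split {F : Set (Set ℕ)} (hF : #F < rNum) :
    ∃ X : Set ℕ, ∀ B ∈ F, B.Infinite → (B \ X).Infinite ∧ (B ∩ X).Infinite := by
  by_contra hcon
  push Not at hcon
  have h1 : #{B | B ∈ F ∧ B.Infinite} ∈ {μ | ∃ ℛ : Set (Set ℕ), #ℛ = μ ∧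
      (∀ B ∈ ℛ, B.Infinite) ∧ ∀ X : Set ℕ, ∃ B ∈ ℛ, (B \ X).Finite ∨ (B ∩ X).Finite} := by
    refine ⟨{B | B ∈ F ∧ B.Infinite}, rfl, fun B hB => hB.2, fun X => ?_⟩
    obtain ⟨B, hB, hinf, h⟩ := hcon X
    refine ⟨B, ⟨hB, hinf⟩, ?_⟩
    by_cases h' : (B \ X).Infinite
    · exact Or.inr (h h')
    · exact Or.inl (not_infinite.1 h')
  have h2 : rNum ≤ #{B | B ∈ F ∧ B.Infinite} := csInf_le' h1
  exact absurd hF (not_lt.2 (h2.trans (mk_le_mk_of_subset fun B hB => hB.1)))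

/-- A name, decided locally, for a function from `Θ` onto `K × L`. -/
structure Sys (P : Type) [Preorder P] (Θ K L : Type) [LinearOrder Θ] where
  D : P → Θ → Option (K × L)
  mono : ∀ {q r : P}, r ≤ q → ∀ i z, D q i = some z → D r i = some z
  fill : ∀ q i, ∃ r ≤ q, ∀ j ≤ i, ∃ z, D r j = some z
  gen : ∀ q z, ∃ r ≤ q, ∃ i, D r i = some z

section

variable {P : Type} [Preorder P] {Θ K L : Type} [LinearOrder Θ]

/-- The sets listed before `i`. -/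
def lst (S : Sys P Θ K L) (dec : L → Set ℕ) (q : P) (i : Θ) : Set (Set ℕ) :=
  {B | ∃ j < i, ∃ z, S.D q j = some z ∧ dec z.2 = B}

theorem lst_eq (S : Sys P Θ K L) (dec : L → Set ℕ) {q r : P} (hr : r ≤ q) {i : Θ}
    (h : ∀ j < i, ∃ z, S.D q j = some z) : lst S dec r i = lst S dec q i := by
  ext B
  constructor
  · rintro ⟨j, hj, z, hz, rfl⟩
    obtain ⟨z', hz'⟩ := h j hj
    have h1 := S.mono hr j z' hz'
    rw [hz] at h1
    obtain rfl := Option.some.inj h1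
    exact ⟨j, hj, z, hz', rfl⟩
  · rintro ⟨j, hj, z, hz, rfl⟩
    exact ⟨j, hj, z, S.mono hr j z hz, rfl⟩

/-- The first place where `x` is listed is `i`. -/
def Rk (S : Sys P Θ K L) (q : P) (x : K) (i : Θ) : Prop :=
  (∃ l, S.D q i = some (x, l)) ∧ ∀ j < i, ∃ z, S.D q j = some z ∧ z.1 ≠ x

theorem Rk.down {S : Sys P Θ K L} {q r : P} (hr : r ≤ q) {x : K} {i : Θ} (h : Rk S q x i) :
    Rk S r x i := by
  obtain ⟨⟨l, hl⟩, h2⟩ := h
  refine ⟨⟨l, S.mono hr _ _ hl⟩, fun j hj => ?_⟩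
  obtain ⟨z, hz, hz'⟩ := h2 j hj
  exact ⟨z, S.mono hr _ _ hz, hz'⟩

theorem Rk.eq {S : Sys P Θ K L} {q : P} {x : K} {i i' : Θ} (h : Rk S q x i) (h' : Rk S q x i') :
    i = i' := by
  have key : ∀ {i i' : Θ}, Rk S q x i → Rk S q x i' → ¬ i < i' := by
    intro i i' h h' hlt
    obtain ⟨l, hl⟩ := h.1
    obtain ⟨z, hz, hz'⟩ := h'.2 i hlt
    rw [hl] at hz
    exact hz' (congrArg Prod.fst (Option.some.inj hz)).symm
  rcases lt_trichotomy i i' with h1 | h1 | h1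
  · exact absurd h1 (key h h')
  · exact h1
  · exact absurd h1 (key h' h)

theorem exists_Rk [WellFoundedLT Θ] [Nonempty L] (S : Sys P Θ K L) (q : P) (x : K) :
    ∃ r ≤ q, ∃ i, Rk S r x i := by
  obtain ⟨l0⟩ := ‹Nonempty L›
  obtain ⟨r1, hr1, i1, h1⟩ := S.gen q (x, l0)
  obtain ⟨r2, hr2, h2⟩ := S.fill r1 i1
  obtain ⟨i, ⟨hi, l, hl⟩, hmin⟩ := (wellFounded_lt (α := Θ)).has_min
    {i | i ≤ i1 ∧ ∃ l, S.D r2 i = some (x, l)} ⟨i1, le_rfl, l0, S.mono hr2 _ _ h1⟩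
  refine ⟨r2, hr2.trans hr1, i, ⟨l, hl⟩, fun j hj => ?_⟩
  obtain ⟨z, hz⟩ := h2 j (hj.le.trans hi)
  refine ⟨z, hz, fun hzx => ?_⟩
  refine hmin j ⟨hj.le.trans hi, z.2, ?_⟩ hj
  rw [hz, ← hzx]

/-- The colouring: the set of the `n` of colour `1` with `x` splits all sets listed before `x`. -/
def col (S : Sys P Θ K L) (dec : L → Set ℕ) (spl : Set (Set ℕ) → Set ℕ) (x : K) (n : ℕ) : Set P :=
  {q | ∃ i, Rk S q x i ∧ n ∈ spl (lst S dec q i)}

theorem Rk.defd {S : Sys P Θ K L} {q : P} {x : K} {i : Θ} (h : Rk S q x i) :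
    ∀ j < i, ∃ z, S.D q j = some z := fun j hj => (h.2 j hj).imp fun _ hz => hz.1

theorem meets_col (S : Sys P Θ K L) (dec : L → Set ℕ) (spl : Set (Set ℕ) → Set ℕ) {q : P} {x : K}
    {i : Θ} (h : Rk S q x i) (n : ℕ) :
    q ∈ meets (col S dec spl x n) ↔ n ∈ spl (lst S dec q i) := by
  constructor
  · intro hq
    obtain ⟨r, hr, s, ⟨i', hi', hn⟩, hrs⟩ := hq q le_rfl
    have h1 : i' = i := (hi'.down hrs).eq (h.down hr)
    subst h1
    rwa [← lst_eq S dec hrs hi'.defd, lst_eq S dec hr h.defd] at hn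
  · intro hn
    exact meets_of_mem ⟨i, h, hn⟩

theorem neg [WellFoundedLT Θ] {θ : Cardinal.{0}} (hθ : ℵ₀ < θ) (hP : Closed θ P)
    (hΘ : ∀ i : Θ, #(Iic i) < θ) (hr : θ ≤ rNum) (S : Sys P Θ K L) (enc : Set ℕ → L)
    (dec : L → Set ℕ) (hdec : ∀ B, dec (enc B) = B) (spl : Set (Set ℕ) → Set ℕ)
    (hspl : ∀ F : Set (Set ℕ), #F < rNum → ∀ B ∈ F, B.Infinite →
      (B \ spl F).Infinite ∧ (B ∩ spl F).Infinite)
    {W : Type} (hW : θ ≤ #W) (R : W → K → Set P) (Bn : ℕ → Set P) (b : Bool) (p : P)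
    (hfun : p ∈ IsFun R) (hinj : p ∈ IsInj R) (hinf : p ∈ FInf Bn)
    (hcol : ∀ r ≤ p, ∀ w x n, r ∈ meets (R w x) → r ∈ meets (Bn n) →
      ∃ r' ≤ r, r' ∈ HasColour (col S dec spl) x n b) : False := by
  classical
  have hWne : Nonempty W := by
    rw [← mk_ne_zero_iff]
    intro h0
    rw [h0] at hW
    exact absurd (aleph0_pos.trans hθ) (not_lt.2 hW)
  obtain ⟨w0⟩ := hWne
  obtain ⟨q0, hq0, x0, -⟩ := IsFun.total hfun w0
  have hLne : Nonempty L := ⟨enc ∅⟩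
  -- decide the set `B`
  obtain ⟨r1, hr1, hdec1⟩ := decide hP (J := ℕ) (by rw [mk_nat]; exact hθ)
    (fun n => meets (Bn n)) (fun n => down_meets _) p
  let B : Set ℕ := {n | r1 ∈ meets (Bn n)}
  have hB : B.Infinite := by
    intro hfin
    obtain ⟨m, hm⟩ := hfin.bddAbove
    obtain ⟨r, hr, n, hn, hn'⟩ := mem_fex.1 (hinf (m + 1)) r1 hr1
    have h1 : n ∈ B := by
      rcases hdec1 n with h | h
      · exact h
      · exact absurd hn' (h r hr)
    have h2 := hm h1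
    have h3 : m + 1 ≤ n := hn
    omega
  obtain ⟨r2, hr2, i0, h2⟩ := S.gen r1 (x0, enc B)
  obtain ⟨r3, hr3, h3⟩ := S.fill r2 i0
  choose z hz using fun j : Iic i0 => h3 j.1 j.2
  obtain ⟨r4, hr4, h4⟩ := decide hP (J := Iic i0) (hΘ i0)
    (fun j => {q | ∃ w, q ∈ meets (R w (z j).1)})
    (fun j q hq r hr => hq.imp fun w hw => down_meets _ _ hw _ hr) r3
  have hw : ∃ w : W, ∀ j : Iic i0, ∀ h : ∃ w, r4 ∈ meets (R w (z j).1), h.choose ≠ w := by
    by_contra hcon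
    push Not at hcon
    choose j hj hj' using hcon
    have : Function.Injective j := by
      intro w w' hww'
      rw [← hj' w, ← hj' w']
      congr 1
      rw [hww']
    have h5 : #W ≤ #(Iic i0) := mk_le_of_injective this
    exact absurd (hΘ i0) (not_lt.2 (hW.trans h5))
  obtain ⟨w, hw⟩ := hw
  have hle4 : r4 ≤ p := ((hr4.trans hr3).trans hr2).trans hr1
  obtain ⟨r5, hr5, x, hx⟩ := mem_fex.1 (hfun.1 w) r4 hle4
  have hne : ∀ j : Iic i0, (z j).1 ≠ x := by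
    rintro j rfl
    rcases h4 j with h | h
    · refine hw j h ?_
      have h5 := h.choose_spec
      obtain ⟨_, -, h6⟩ := mem_fimp.1 (hinj h.choose w (z j).1) r5 (hr5.trans hle4)
        ⟨down_meets _ _ h5 _ hr5, hx⟩
      exact h6
    · exact h r5 hr5 ⟨w, hx⟩
  obtain ⟨r6, hr6, i, hi⟩ := exists_Rk S r5 x
  have hle63 : r6 ≤ r3 := (hr6.trans hr5).trans hr4
  have hi0 : i0 < i := by
    by_contra hcon
    push Not at hcon
    obtain ⟨l, hl⟩ := hi.1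
    have h5 := S.mono hle63 _ _ (hz ⟨i, hcon⟩)
    have h6 : S.D r6 i = some (z ⟨i, hcon⟩) := h5
    rw [hl] at h6
    exact hne ⟨i, hcon⟩ (congrArg Prod.fst (Option.some.inj h6)).symm
  have hBmem : B ∈ lst S dec r6 i :=
    ⟨i0, hi0, (x0, enc B), S.mono (hle63.trans hr3) _ _ h2, hdec B⟩
  have hsmall : #(lst S dec r6 i) < rNum := by
    refine lt_of_lt_of_le ?_ hr
    have h5 : lst S dec r6 i ⊆ range (fun j : Iic i => dec (((S.D r6 j.1).getD (x0, enc B)).2)) := by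
      rintro _ ⟨j, hj, z, hz, rfl⟩
      refine ⟨⟨j, hj.le⟩, ?_⟩
      simp only [hz, Option.getD_some]
    exact ((mk_le_mk_of_subset h5).trans mk_range_le).trans_lt (hΘ i)
  obtain ⟨hs1, hs2⟩ := hspl _ hsmall B hBmem hB
  have hle61 : r6 ≤ r1 := (hle63.trans hr3).trans hr2
  cases b with
  | true =>
    obtain ⟨n, hn, hn'⟩ := hs1.nonempty
    obtain ⟨r7, hr7, h7⟩ := hcol r6 (hle61.trans hr1) w x n (down_meets _ _ hx _ hr6)
      (down_meets _ _ hn _ hle61)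
    have h8 := (meets_col S dec spl (hi.down hr7) n).1 h7
    rw [lst_eq S dec hr7 hi.defd] at h8
    exact hn' h8
  | false =>
    obtain ⟨n, hn, hn'⟩ := hs2.nonempty
    obtain ⟨r7, hr7, h7⟩ := hcol r6 (hle61.trans hr1) w x n (down_meets _ _ hx _ hr6)
      (down_meets _ _ hn _ hle61)
    refine h7 r7 le_rfl ?_
    rw [meets_col S dec spl (hi.down hr7) n, lst_eq S dec hr7 hi.defd]
    exact hn'

/-- The same for sets of a given order type. -/
theorem neg_homog [WellFoundedLT Θ] [LinearOrder K] {θ : Cardinal.{0}} (hθ : ℵ₀ < θ)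
    (hP : Closed θ P)
    (hΘ : ∀ i : Θ, #(Iic i) < θ) (hr : θ ≤ rNum) (S : Sys P Θ K L) (enc : Set ℕ → L)
    (dec : L → Set ℕ) (hdec : ∀ B, dec (enc B) = B) (spl : Set (Set ℕ) → Set ℕ)
    (hspl : ∀ F : Set (Set ℕ), #F < rNum → ∀ B ∈ F, B.Infinite →
      (B \ spl F).Infinite ∧ (B ∩ spl F).Infinite)
    {W : Type} [LinearOrder W] (hW : θ ≤ #W) (b : Bool) (p : P) :
    p ∉ Homog W (col S dec spl) b := by
  intro h
  obtain ⟨q1, -, A, h1⟩ := mem_fex.1 h p le_rfl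
  obtain ⟨q2, -, B, hA, hB, hcol⟩ := mem_fex.1 h1 q1 le_rfl
  obtain ⟨q3, hq3, R, hinc, hran⟩ := mem_fex.1 hA q2 le_rfl
  refine neg hθ hP hΘ hr S enc dec hdec spl hspl hW R B b q3 hinc.1 ?_ ?_ ?_
  · intro w w' x
    refine mem_fimp.2 fun r hr h => ?_
    rcases lt_trichotomy w w' with h' | h' | h'
    · obtain ⟨r', hr', h2⟩ := mem_fimp.1 (hinc.2 w w' h' x x) r hr h
      exact absurd h2 (lt_irrefl x)
    · exact ⟨r, le_rfl, h'⟩
    · obtain ⟨r', hr', h2⟩ := mem_fimp.1 (hinc.2 w' w h' x x) r hr ⟨h.2, h.1⟩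
      exact absurd h2 (lt_irrefl x)
  · intro m
    exact down_fex _ _ (hB m) _ hq3
  · intro r hr w x n hx hn
    obtain ⟨r', hr', h2⟩ := mem_fimp.1 ((hran x).1 w) r hr hx
    obtain ⟨r'', hr'', h3⟩ := mem_fimp.1 (hcol x n) r' ((hr'.trans hr).trans hq3)
      ⟨h2, down_meets _ _ hn _ hr'⟩
    exact ⟨r'', hr''.trans hr', h3⟩

end

end Pool.Agent.Q213.LV
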