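import Mathlib
import Pool.Agent.Q213.LV.Neg

/-!
# The Levy collapse lists pairs
-/

set_option autoImplicit false

namespace Pool.Agent.Q213.LV

open Cardinal Set
open Pool.Agent.Helper669.Forcing

/-- Extend a condition by a partial function. -/
noncomputable def Levy.ext {K L : Type} (q : Levy K L) (g : K → Option L)
    (hg : #{x // g x ≠ none} < #K) (hK : ℵ₀ ≤ #K) : Levy K L where
  f x := (q.f x).or (g x)
  small := by
    have h1 : {x | (q.f x).or (g x) ≠ none} ⊆ {x | q.f x ≠ none} ∪ {x | g x ≠ none} := by
      intro x hx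
      by_contra hcon
      simp only [mem_union, mem_ofPred_eq, not_or, not_not] at hcon
      apply hx
      rw [hcon.1, hcon.2]
      rfl
    exact (mk_le_mk_of_subset h1).trans_lt ((mk_union_le _ _).trans_lt
      (add_lt_of_lt hK q.small hg))

theorem Levy.ext_le {K L : Type} (q : Levy K L) (g : K → Option L)
    (hg : #{x // g x ≠ none} < #K) (hK : ℵ₀ ≤ #K) : q.ext g hg hK ≤ q := by
  intro x y hxy
  change (q.f x).or (g x) = some y
  rw [hxy]
  rfl

/-- Chains of fewer than `cf κ` conditions have lower bounds. -/
theorem closed_levy' {κ : Cardinal.{0}} (hκ : ℵ₀ ≤ κ) (K L : Type) (hK : #K = κ) :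
    Closed κ.ord.cof (Levy K L) := by
  classical
  intro ι hι q0 f hf hch
  rcases isEmpty_or_nonempty ι with he | ⟨⟨i0⟩⟩
  · exact ⟨q0, le_rfl, fun i => (he.false i).elim⟩
  have huniq : ∀ (x : K) i j y z, (f i).f x = some y → (f j).f x = some z → y = z := by
    intro x i j y z h1 h2
    rcases hch i j with h | h
    · have := h x z h2
      rw [h1] at this
      exact Option.some.inj this
    · have := h x y h1
      rw [h2] at this
      exact (Option.some.inj this).symm
  let g : K → Option L := fun x => if h : ∃ y, ∃ i, (f i).f x = some y then some h.choose else none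
  have hg : ∀ x y i, (f i).f x = some y → g x = some y := by
    intro x y i h
    have hex : ∃ y, ∃ i, (f i).f x = some y := ⟨y, i, h⟩
    obtain ⟨j, hj⟩ := hex.choose_spec
    have : g x = some hex.choose := dif_pos hex
    rw [this, huniq x j i _ _ hj h]
  have hdom : {x | g x ≠ none} ⊆ ⋃ i, {x | (f i).f x ≠ none} := by
    intro x hx
    by_contra hcon
    apply hx
    apply dif_neg
    rintro ⟨y, i, h⟩
    exact hcon (mem_iUnion.2 ⟨i, fun h' => by rw [h] at h'; cases h'⟩)
  have hsmall : #{x | g x ≠ none} < #K := by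
    refine (mk_le_mk_of_subset hdom).trans_lt ?_
    rw [hK]
    refine (mk_iUnion_le _).trans_lt (mul_lt_of_lt hκ (hι.trans_le (Ordinal.cof_ord_le κ)) ?_)
    refine iSup_lt_of_lt_cof_ord hι fun i => ?_
    have := (f i).small
    rw [hK] at this
    exact this
  refine ⟨⟨g, hsmall⟩, ?_, ?_⟩
  · intro x y h
    exact hg x y i0 (hf i0 x y h)
  · intro i x y h
    exact hg x y i h

/-- The regular case: the generic function itself. -/
noncomputable def sysReg {K L : Type} [LinearOrder K] (hK : ℵ₀ ≤ #K) (hiic : ∀ x : K, #(Iic x) < #K)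
    (l0 : L) (e : L → K × L) (he : Function.Surjective e) : Sys (Levy K L) K K L where
  D q i := (q.f i).map e
  mono := by
    intro q r hr i z hz
    obtain ⟨y, hy, rfl⟩ := Option.map_eq_some_iff.1 hz
    exact Option.map_eq_some_iff.2 ⟨y, hr i y hy, rfl⟩
  fill := by
    classical
    intro q i
    have hg : #{x // (if x ≤ i then some l0 else none : Option L) ≠ none} < #K := by
      refine (mk_le_mk_of_subset (t := Iic i) ?_).trans_lt (hiic i)
      intro x hx
      by_contra hcon
      exact hx (if_neg hcon)
    refine ⟨q.ext (fun x => if x ≤ i then some l0 else none) hg hK, q.ext_le _ _ _, ?_⟩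
    intro j hj
    change ∃ z, ((q.f j).or (if j ≤ i then some l0 else none)).map e = some z
    rw [if_pos hj]
    cases q.f j with
    | none => exact ⟨e l0, rfl⟩
    | some y => exact ⟨e y, rfl⟩
  gen := by
    classical
    intro q z
    obtain ⟨l, rfl⟩ := he z
    obtain ⟨x, hx⟩ : ∃ x, q.f x = none := by
      by_contra hcon
      push Not at hcon
      have h1 : #{x // q.f x ≠ none} = #K := by
        refine mk_congr ⟨fun x => x.1, fun x => ⟨x, hcon x⟩, fun _ => rfl, fun _ => rfl⟩
      exact absurd q.small (by rw [h1]; exact lt_irrefl _)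
    have hg : #{y // (if y = x then some l else none : Option L) ≠ none} < #K := by
      refine (mk_le_mk_of_subset (t := {x}) ?_).trans_lt ?_
      · intro y hy
        by_contra hcon
        exact hy (if_neg hcon)
      · rw [mk_singleton]
        exact one_lt_aleph0.trans_le hK
    refine ⟨q.ext (fun y => if y = x then some l else none) hg hK, q.ext_le _ _ _, x, ?_⟩
    change ((q.f x).or (if x = x then some l else none)).map e = some (e l)
    rw [hx, if_pos rfl]
    rfl

/-- Some element with a given property, if there is one. -/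
noncomputable def pick {L : Type} (p : L → Prop) (l0 : L) : L :=
  open Classical in if h : ∃ l, p l then h.choose else l0

/-- The value coded by `q` below `i`: the one which is taken on all but fewer than `#(Iio i)`
places. -/
noncomputable def cd {K L : Type} [LinearOrder K] (q : Levy K L) (i : K) (l0 : L) : L :=
  pick (fun l => #{x // x < i ∧ q.f x ≠ some l} < #(Iio i)) l0

theorem cd_eq {K L : Type} [LinearOrder K] {q : Levy K L} {i : K} {l l0 : L}
    (hi : ℵ₀ ≤ #(Iio i)) (hl : #{x // x < i ∧ q.f x ≠ some l} < #(Iio i)) : cd q i l0 = l := by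
  classical
  have hex : ∃ l, #{x // x < i ∧ q.f x ≠ some l} < #(Iio i) := ⟨l, hl⟩
  have h1 : cd q i l0 = hex.choose := dif_pos hex
  rw [h1]
  by_contra hne
  have h2 := hex.choose_spec
  have h3 : Iio i ⊆ {x | x < i ∧ q.f x ≠ some hex.choose} ∪ {x | x < i ∧ q.f x ≠ some l} := by
    intro x hx
    by_cases h4 : q.f x = some l
    · refine Or.inl ⟨hx, fun h5 => ?_⟩
      rw [h4] at h5
      exact hne (Option.some.inj h5).symm
    · exact Or.inr ⟨hx, h4⟩
  have h4 := (mk_le_mk_of_subset h3).trans (mk_union_le _ _)
  exact absurd (add_lt_of_lt hi h2 hl) (not_lt.2 h4)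

theorem cd_mono {K L : Type} [LinearOrder K] {q r : Levy K L} {i : K} {l0 : L}
    (hr : r ≤ q) (hi : ∀ x < i, q.f x ≠ none) : cd r i l0 = cd q i l0 := by
  have h1 : ∀ x < i, r.f x = q.f x := by
    intro x hx
    obtain ⟨y, hy⟩ := Option.ne_none_iff_exists'.1 (hi x hx)
    rw [hy]
    exact hr x y hy
  have h2 : ∀ l, {x | x < i ∧ r.f x ≠ some l} = {x | x < i ∧ q.f x ≠ some l} := by
    intro l
    ext x
    constructor
    · rintro ⟨h3, h4⟩
      exact ⟨h3, by rwa [h1 x h3] at h4⟩
    · rintro ⟨h3, h4⟩
      exact ⟨h3, by rwa [h1 x h3]⟩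
  have h3 : (fun l => #{x // x < i ∧ r.f x ≠ some l} < #(Iio i)) =
      fun l => #{x // x < i ∧ q.f x ≠ some l} < #(Iio i) := by
    funext l
    change (#({x | x < i ∧ r.f x ≠ some l} : Set K) < _) =
      (#({x | x < i ∧ q.f x ≠ some l} : Set K) < _)
    rw [h2 l]
  unfold cd
  rw [h3]

/-- The singular case. -/
noncomputable def sysSing {K L : Type} [LinearOrder K] (hK0 : ℵ₀ < #K) (hK : ℵ₀ ≤ #K) (hiio : ∀ x : K, #(Iio x) < #K)
    (Θ : Set K) (hΘ : ∀ μ < #K, ∃ i ∈ Θ, μ < #(Iio i))
    (l0 : L) (e : L → K × L) (he : Function.Surjective e) : Sys (Levy K L) Θ K L where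
  D q i := open Classical in if ∀ x < i.1, q.f x ≠ none then some (e (cd q i.1 l0)) else none
  mono := by
    classical
    intro q r hr i z hz
    by_cases h : ∀ x < i.1, q.f x ≠ none
    · have h' : ∀ x < i.1, r.f x ≠ none := by
        intro x hx
        obtain ⟨y, hy⟩ := Option.ne_none_iff_exists'.1 (h x hx)
        rw [hr x y hy]
        exact Option.some_ne_none y
      rw [if_pos h] at hz
      rw [if_pos h', cd_mono hr h]
      exact hz
    · rw [if_neg h] at hz
      cases hz
  fill := by
    classical
    intro q i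
    have hg : #{x // (if x < i.1 then some l0 else none : Option L) ≠ none} < #K := by
      refine (mk_le_mk_of_subset (t := Iio i.1) ?_).trans_lt (hiio i.1)
      intro x hx
      by_contra hcon
      exact hx (if_neg hcon)
    refine ⟨q.ext (fun x => if x < i.1 then some l0 else none) hg hK, q.ext_le _ _ _, ?_⟩
    intro j hj
    have h : ∀ x < j.1, (q.ext (fun x => if x < i.1 then some l0 else none) hg hK).f x ≠ none := by
      intro x hx
      change (q.f x).or (if x < i.1 then some l0 else none) ≠ none
      rw [if_pos (hx.trans_le hj)]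
      cases q.f x with
      | none => exact Option.some_ne_none _
      | some y => exact Option.some_ne_none _
    exact ⟨_, if_pos h⟩
  gen := by
    classical
    intro q z
    obtain ⟨l, rfl⟩ := he z
    obtain ⟨i, hi, hinf, hlt⟩ : ∃ i ∈ Θ, ℵ₀ ≤ #(Iio i) ∧ #{x // q.f x ≠ none} < #(Iio i) := by
      obtain ⟨i, hi, hlt⟩ := hΘ _ (max_lt hK0 q.small)
      exact ⟨i, hi, (le_max_left _ _).trans hlt.le, (le_max_right _ _).trans_lt hlt⟩
    have hg : #{x // (if x < i then some l else none : Option L) ≠ none} < #K := by
      refine (mk_le_mk_of_subset (t := Iio i) ?_).trans_lt (hiio i)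
      intro x hx
      by_contra hcon
      exact hx (if_neg hcon)
    refine ⟨q.ext (fun x => if x < i then some l else none) hg hK, q.ext_le _ _ _, ⟨i, hi⟩, ?_⟩
    have h : ∀ x < i, (q.ext (fun x => if x < i then some l else none) hg hK).f x ≠ none := by
      intro x hx
      change (q.f x).or (if x < i then some l else none) ≠ none
      rw [if_pos hx]
      cases q.f x with
      | none => exact Option.some_ne_none _
      | some y => exact Option.some_ne_none _
    rw [if_pos h]
    congr 2
    apply cd_eq hinf
    refine lt_of_le_of_lt (mk_le_mk_of_subset (t := {x | q.f x ≠ none}) ?_) hlt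
    rintro x ⟨hx, hx'⟩ hcon
    apply hx'
    change (q.f x).or (if x < i then some l else none) = some l
    rw [hcon, if_pos hx]
    rfl

end Pool.Agent.Q213.LV
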