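import Mathlib
import Pool.Agent.Q213.LV.Inst

set_option autoImplicit false

namespace Pool.Agent.Q213.LV

open Cardinal Set
open Pool.Agent.Helper669.Forcing

theorem exists_spl : ∃ spl : Set (Set ℕ) → Set ℕ, ∀ F : Set (Set ℕ), #F < rNum → ∀ B ∈ F,
    B.Infinite → (B \ spl F).Infinite ∧ (B ∩ spl F).Infinite := by
  classical
  have h : ∀ F : Set (Set ℕ), ∃ X : Set ℕ, #F < rNum → ∀ B ∈ F,
      B.Infinite → (B \ X).Infinite ∧ (B ∩ X).Infinite := by
    intro F
    by_cases hF : #F < rNum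
    · obtain ⟨X, hX⟩ := exists_split hF
      exact ⟨X, fun _ => hX⟩
    · exact ⟨∅, fun h => absurd h hF⟩
  choose spl hspl using h
  exact ⟨spl, hspl⟩

theorem exists_enc {L : Type} (hL : 𝔠 ≤ #L) :
    ∃ (enc : Set ℕ → L) (dec : L → Set ℕ), ∀ B, dec (enc B) = B := by
  have h1 : #(Set ℕ) ≤ #L := by
    rw [mk_set, mk_nat, two_power_aleph0]
    exact hL
  obtain ⟨enc⟩ := h1
  exact ⟨enc, Function.invFun enc, fun B => Function.leftInverse_invFun enc.injective B⟩

theorem exists_pair {K L : Type} (hK : ℵ₀ ≤ #K) (hKL : #K ≤ #L) :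
    ∃ e : L → K × L, Function.Surjective e := by
  have hL : ℵ₀ ≤ #L := hK.trans hKL
  have h1 : #(K × L) = #L := by
    rw [mk_prod, lift_id, lift_id]
    exact mul_eq_right hL hKL (ne_of_gt (aleph0_pos.trans_le hK))
  obtain ⟨e⟩ := Cardinal.eq.1 h1
  exact ⟨e.symm, e.symm.surjective⟩

/-- For regular `κ ≤ 𝔯` the strong relation fails. -/
theorem strong_fails {κ : Cardinal.{0}} (hκ : κ.IsRegular) (hκ0 : ℵ₀ < κ) (K L : Type)
    [LinearOrder K] [WellFoundedLT K]
    (hK : Ordinal.type ((· < ·) : K → K → Prop) = κ.ord) (hc : 𝔠 ≤ #L) (hL : κ ≤ #L)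
    (hr : κ ≤ rNum) (p : Levy K L) : p ∈ fnot (Strong (Levy K L) K) := by
  obtain ⟨hmk, hkap⟩ := kap hκ K hK
  obtain ⟨enc, dec, hdec⟩ := exists_enc hc
  obtain ⟨spl, hspl⟩ := exists_spl
  obtain ⟨e, he⟩ := exists_pair (K := K) (L := L) (by rw [hmk]; exact hκ0.le) (by rw [hmk]; exact hL)
  let S : Sys (Levy K L) K K L := sysReg (by rw [hmk]; exact hκ0.le)
    (fun x => by rw [hmk]; exact iic_small hκ0.le hkap x) (enc ∅) e he
  intro q _ hq
  obtain ⟨r, _, b, hb⟩ := mem_fex.1 (hq (col S dec spl)) q le_rfl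
  exact neg_homog hκ0 (closed_levy hκ K L hmk) (fun x => iic_small hκ0.le hkap x) hr S enc dec hdec
    spl hspl (W := K) (by rw [hmk]) b r hb

/-- For singular `κ` with `ω < cf κ ≤ 𝔯` the unbalanced relation fails for `α = cf κ`. -/
theorem singular_fails {κ : Cardinal.{0}} (hθ0 : ℵ₀ < κ.ord.cof) (hθ : κ.ord.cof < κ)
    (K L : Type) [LinearOrder K] [WellFoundedLT K]
    (hK : Ordinal.type ((· < ·) : K → K → Prop) = κ.ord) (hc : 𝔠 ≤ #L) (hL : κ ≤ #L)
    (hr : κ.ord.cof ≤ rNum) {W : Type} [LinearOrder W] (hW : κ.ord.cof ≤ #W)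
    (p : Levy K L) : p ∈ fnot (Unbalanced (Levy K L) K W) := by
  have hκ0 : ℵ₀ < κ := hθ0.trans hθ
  have hmk : #K = κ := by
    have := congrArg Ordinal.card hK
    rwa [Ordinal.card_type, card_ord] at this
  have hiio : ∀ x : K, #(Iio x) < #K := fun x => mk_Iio_lt x (by rw [hmk, hK])
  have hcof : Order.cof K = κ.ord.cof := by rw [← Ordinal.cof_type, hK]
  obtain ⟨Θ, hΘcof, hΘty⟩ := Ordinal.exists_ord_cof_eq K
  rw [hcof] at hΘty
  have hΘmk : #Θ = κ.ord.cof := by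
    have := congrArg Ordinal.card hΘty
    rwa [Ordinal.card_type, card_ord] at this
  have hΘiic : ∀ i : Θ, #(Iic i) < κ.ord.cof := by
    intro i
    have h1 : #(Iio i) < κ.ord.cof := by
      rw [← hΘmk]
      exact mk_Iio_lt i (by rw [hΘmk, hΘty])
    have h2 : Iic i = insert i (Iio i) := by
      ext y
      simp only [mem_Iic, mem_insert_iff, mem_Iio]
      exact le_iff_eq_or_lt
    rw [h2]
    exact mk_insert_le.trans_lt (add_lt_of_lt hθ0.le h1 (one_lt_aleph0.trans hθ0))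
  have hlim : ∀ μ < #K, ∃ i ∈ Θ, μ < #(Iio i) := by
    intro μ hμ
    rw [hmk] at hμ
    have hsing : κ.IsSingular := ⟨hκ0.le, hθ.ne⟩
    have h1 : Order.succ μ < κ := hsing.isSuccLimit.succ_lt hμ
    have h2 : (Order.succ μ).ord < Ordinal.type ((· < ·) : K → K → Prop) := by
      rw [hK]
      exact ord_lt_ord.2 h1
    obtain ⟨k, hk⟩ := Ordinal.typein_surj ((· < ·) : K → K → Prop) h2
    have h3 : #(Iio k) = Order.succ μ := by
      have := congrArg Ordinal.card hk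
      rw [card_ord] at this
      rw [← this]
      rfl
    obtain ⟨i, hi, hki⟩ := hΘcof k
    refine ⟨i, hi, ?_⟩
    refine lt_of_lt_of_le ?_ (mk_le_mk_of_subset (Iio_subset_Iio hki))
    rw [h3]
    exact Order.lt_succ μ
  obtain ⟨enc, dec, hdec⟩ := exists_enc hc
  obtain ⟨spl, hspl⟩ := exists_spl
  obtain ⟨e, he⟩ := exists_pair (K := K) (L := L) (by rw [hmk]; exact hκ0.le) (by rw [hmk]; exact hL)
  let S : Sys (Levy K L) Θ K L := sysSing (by rw [hmk]; exact hκ0) (by rw [hmk]; exact hκ0.le)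
    hiio Θ hlim (enc ∅) e he
  intro q _ hq
  refine hq (col S dec spl) q le_rfl ⟨?_, ?_⟩
  · intro r _
    exact neg_homog hθ0 (closed_levy' hκ0.le K L hmk) hΘiic hr S enc dec hdec
      spl hspl (W := K) (by rw [hmk]; exact hθ.le) false r
  · intro r _
    exact neg_homog hθ0 (closed_levy' hκ0.le K L hmk) hΘiic hr S enc dec hdec
      spl hspl (W := W) hW true r

end Pool.Agent.Q213.LV
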