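import Mathlib
import Pool.Agent.Q213.LV.Fin

/-!
# The game
-/

set_option autoImplicit false

namespace Pool.Agent.Q213.LV

open Cardinal Set
open Pool.Agent.Helper669.Forcing

/-- A strategy of player II in the game of length `K` in which at stage `x` player I plays an
infinite set `B x` and then II answers with a set `X x`, which may depend on all `B y`, `y ≤ x`. -/
abbrev Strategy (K : Type) [LE K] : Type := (x : K) → (∀ y : K, y ≤ x → Set ℕ) → Set ℕ

/-- The strategy is winning: against all infinite moves, each answer meets all earlier moves of I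
in an infinite set, and there is no strictly increasing sequence of stages of the length of `W`
such that the intersection of the answers at these stages is infinite. -/
def Winning {K : Type} [Preorder K] (W : Type) [LT W] (σ : Strategy K) : Prop :=
  ∀ B : K → Set ℕ, (∀ x, (B x).Infinite) →
    (∀ x, ∀ y ≤ x, (σ x (fun z _ => B z) ∩ B y).Infinite) ∧
    ∀ f : W → K, (∀ w w', w < w' → f w < f w') → (⋂ w, σ (f w) (fun z _ => B z)).Finite

/-- Player II has a winning strategy. -/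
def IIWins (K : Type) [Preorder K] (W : Type) [LT W] : Prop := ∃ σ : Strategy K, Winning W σ

section

variable {κ : Cardinal.{0}} {P : Type} [Preorder P] {K : Type} [LinearOrder K] [WellFoundedLT K]

/-- From the failure of the relation in the extension to a strategy. -/
theorem wins_of_fails (hκ0 : ℵ₀ < κ) (hP : Closed κ P) (hK : Kap κ K) {W : Type} [LinearOrder W]
    (hW : #W < κ) (c : K → ℕ → Set P) {p : P} (h0 : p ∈ fnot (Homog K c false))
    (h1 : p ∈ fnot (Homog W c true)) : IIWins K W := by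
  classical
  have hne : Nonempty K := hK.nonempty hκ0
  obtain ⟨k0⟩ := hK.nonempty hκ0
  -- one step
  have step : ∀ (x : K) (H : Iio x → P × K × Set ℕ) (b : Iic x → Set ℕ),
      (∀ y, (b y).Infinite) → (∀ j, (H j).1 ≤ p) →
      (∀ i j, (H i).1 ≤ (H j).1 ∨ (H j).1 ≤ (H i).1) →
      ∃ z : P × K × Set ℕ, z.1 ≤ p ∧ (∀ j, z.1 ≤ (H j).1) ∧ (∀ j, (H j).2.1 < z.2.1) ∧
        (∀ n ∈ z.2.2, z.1 ∈ meets (c z.2.1 n)) ∧ ∀ y, (z.2.2 ∩ b y).Infinite := by
    intro x H b hb hH hch
    obtain ⟨q, hq, hqH⟩ := hP (Iio x) (hK.iio x) p (fun j => (H j).1) hH hch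
    obtain ⟨h, r, -, hr, q1, hq1, hqr⟩ := seq hP (J := Iic x) (Y := K)
      (iic_small hκ0.le hK x) q
      (fun j _ y r => ∀ x', y < x' → ∀ r' ≤ r, ∀ m, ¬ ∀ n ∈ b j, m ≤ n →
        r' ∈ fnot (meets (c x' n)))
      (fun j _ q' hq' => claim2 hκ0 hP hK c h0 (hq'.trans hq) (hb j))
    obtain ⟨y1, hy1⟩ := hK.bdd (range h) (mk_range_le.trans_lt (iic_small hκ0.le hK x))
    obtain ⟨y2, hy2⟩ := hK.bdd (range fun j => (H j).2.1) (mk_range_le.trans_lt (hK.iio x))
    obtain ⟨ζ, hζ⟩ := hK.exists_gt hκ0 (max y1 y2)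
    obtain ⟨q2, hq2, hdec⟩ := decide hP (J := ℕ) (by rw [mk_nat]; exact hκ0)
      (fun n => meets (c ζ n)) (fun n => down_meets _) q1
    refine ⟨(q2, ζ, {n | q2 ∈ meets (c ζ n)}), (hq2.trans hq1).trans hq,
      fun j => (hq2.trans hq1).trans (hqH j), fun j => ?_, fun n hn => hn, fun y hfin => ?_⟩
    · exact ((hy2 _ ⟨j, rfl⟩).trans_le (le_max_right _ _)).trans hζ
    · obtain ⟨m, hm⟩ := hfin.bddAbove
      refine hr y ζ (((hy1 _ ⟨y, rfl⟩).trans_le (le_max_left _ _)).trans hζ) q2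
        (hq2.trans (hqr y)) (m + 1) ?_
      intro n hn hmn
      rcases hdec n with h | h
      · have := hm ⟨h, hn⟩
        omega
      · exact h
  -- the run against `b`
  let F : (K → Set ℕ) → K → P × K × Set ℕ := fun B =>
    (wellFounded_lt (α := K)).fix fun x H =>
      if h : ∃ z : P × K × Set ℕ, z.1 ≤ p ∧ (∀ j : Iio x, z.1 ≤ (H j.1 j.2).1) ∧
        (∀ j : Iio x, (H j.1 j.2).2.1 < z.2.1) ∧
        (∀ n ∈ z.2.2, z.1 ∈ meets (c z.2.1 n)) ∧ ∀ y : Iic x, (z.2.2 ∩ B y.1).Infinite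
      then h.choose else (p, k0, ∅)
  have hF : ∀ B x, F B x =
      if h : ∃ z : P × K × Set ℕ, z.1 ≤ p ∧ (∀ j : Iio x, z.1 ≤ (F B j.1).1) ∧
        (∀ j : Iio x, (F B j.1).2.1 < z.2.1) ∧
        (∀ n ∈ z.2.2, z.1 ∈ meets (c z.2.1 n)) ∧ ∀ y : Iic x, (z.2.2 ∩ B y.1).Infinite
      then h.choose else (p, k0, ∅) := fun B x => (wellFounded_lt (α := K)).fix_eq _ _
  have key : ∀ B : K → Set ℕ, (∀ x, (B x).Infinite) → ∀ x, (F B x).1 ≤ p ∧
      (∀ j < x, (F B x).1 ≤ (F B j).1) ∧ (∀ j < x, (F B j).2.1 < (F B x).2.1) ∧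
      (∀ n ∈ (F B x).2.2, (F B x).1 ∈ meets (c (F B x).2.1 n)) ∧
      ∀ y ≤ x, ((F B x).2.2 ∩ B y).Infinite := by
    intro B hB x
    induction x using (wellFounded_lt (α := K)).induction with
    | _ x ih =>
    have hex := step x (fun j => F B j.1) (fun y => B y.1) (fun y => hB _)
      (fun j => (ih j.1 j.2).1) (fun i j => by
        rcases lt_trichotomy i.1 j.1 with h | h | h
        · exact Or.inr ((ih j.1 j.2).2.1 i.1 h)
        · rw [h]
          exact Or.inl le_rfl
        · exact Or.inl ((ih i.1 i.2).2.1 j.1 h))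
    have h2 : F B x = hex.choose := by
      rw [hF B x]
      exact dif_pos hex
    have h3 := hex.choose_spec
    rw [← h2] at h3
    exact ⟨h3.1, fun j hj => h3.2.1 ⟨j, hj⟩, fun j hj => h3.2.2.1 ⟨j, hj⟩, h3.2.2.2.1,
      fun y hy => h3.2.2.2.2 ⟨y, hy⟩⟩
  have hloc : ∀ (B B' : K → Set ℕ) (x : K), (∀ y ≤ x, B y = B' y) → F B x = F B' x := by
    intro B B' x
    induction x using (wellFounded_lt (α := K)).induction with
    | _ x ih =>
    intro hBB
    have e1 : ∀ j : Iio x, F B j.1 = F B' j.1 := fun j =>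
      ih j.1 j.2 fun y hy => hBB y (hy.trans (le_of_lt j.2))
    have e2 : ∀ y : Iic x, B y.1 = B' y.1 := fun y => hBB y.1 y.2
    rw [hF B x, hF B' x]
    simp only [e1, e2]
  let σ0 : Strategy K := fun x b => (F (fun y => if h : y ≤ x then b y h else Set.univ) x).2.2
  refine ⟨σ0, fun B hB => ?_⟩
  have hσ : ∀ x, σ0 x (fun z _ => B z) = (F B x).2.2 := by
    intro x
    have h1 := hloc (fun y => if h : y ≤ x then B y else Set.univ) B x (fun y hy => dif_pos hy)
    change (F (fun y => if h : y ≤ x then B y else Set.univ) x).2.2 = (F B x).2.2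
    rw [h1]
  refine ⟨fun x y hy => ?_, fun f hf => ?_⟩
  · rw [hσ x]
    exact (key B hB x).2.2.2.2 y hy
  · by_contra hinf
    obtain ⟨z, hz⟩ := hK.bdd (range f) (mk_range_le.trans_lt hW)
    refine h1 (F B z).1 (key B hB z).1 ?_
    refine homog_ground c true (fun w => (F B (f w)).2.1)
      (fun w w' hww' => (key B hB (f w')).2.2.1 _ (hf w w' hww')) hinf ?_
    intro w n hn
    have h2 : n ∈ (F B (f w)).2.2 := by
      have := mem_iInter.1 hn w
      rwa [hσ (f w)] at this
    exact down_meets _ _ ((key B hB (f w)).2.2.2.1 n h2) _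
      ((key B hB z).2.1 _ (hz _ ⟨w, rfl⟩))

end

/-- The moves of I coded by a condition. -/
noncomputable def mv {K L : Type} (dec : L → Set ℕ) (q : Levy K L) (y : K) : Set ℕ :=
  ((q.f y).map dec).getD Set.univ

/-- The colouring given by the strategy, played against the generic function. -/
def gcol {K L : Type} [LinearOrder K] (dec : L → Set ℕ) (σ : Strategy K) (x : K) (n : ℕ) :
    Set (Levy K L) :=
  {q | (∀ y ≤ x, q.f y ≠ none) ∧ n ∈ σ x (fun y _ => mv dec q y)}

theorem mv_eq {K L : Type} (dec : L → Set ℕ) {q r : Levy K L} (hr : r ≤ q) {y : K}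
    (hy : q.f y ≠ none) : mv dec r y = mv dec q y := by
  obtain ⟨l, hl⟩ := Option.ne_none_iff_exists'.1 hy
  unfold mv
  rw [hl, hr y l hl]

theorem full_down {K L : Type} {q r : Levy K L} (hr : r ≤ q) {y : K} (hy : q.f y ≠ none) :
    r.f y ≠ none := by
  obtain ⟨l, hl⟩ := Option.ne_none_iff_exists'.1 hy
  rw [hr y l hl]
  exact Option.some_ne_none l

theorem sig_eq {K L : Type} [LinearOrder K] (dec : L → Set ℕ) (σ : Strategy K) {q r : Levy K L}
    (hr : r ≤ q) {x : K} (hx : ∀ y ≤ x, q.f y ≠ none) :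
    σ x (fun y _ => mv dec r y) = σ x (fun y _ => mv dec q y) := by
  congr 1
  funext y hy
  exact mv_eq dec hr (hx y hy)

theorem meets_gcol {K L : Type} [LinearOrder K] (dec : L → Set ℕ) (σ : Strategy K) {q : Levy K L}
    {x : K} (hx : ∀ y ≤ x, q.f y ≠ none) (n : ℕ) :
    q ∈ meets (gcol dec σ x n) ↔ n ∈ σ x (fun y _ => mv dec q y) := by
  constructor
  · intro hq
    obtain ⟨r, hr, s, ⟨hs, hn⟩, hrs⟩ := hq q le_rfl
    rw [← sig_eq dec σ hrs hs, sig_eq dec σ hr hx] at hn
    exact hn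
  · intro hn
    exact meets_of_mem ⟨hx, hn⟩

theorem fails_of_wins {κ : Cardinal.{0}} (hκ : κ.IsRegular) (hκ0 : ℵ₀ < κ) (K L : Type)
    [LinearOrder K] [WellFoundedLT K]
    (hK : Ordinal.type ((· < ·) : K → K → Prop) = κ.ord) (hc : 𝔠 ≤ #L)
    {W : Type} [LinearOrder W] [WellFoundedLT W] (hW : #W < κ) (h : IIWins K W)
    (p : Levy K L) : p ∈ fnot (Unbalanced (Levy K L) K W) := by
  classical
  obtain ⟨σ, hσ⟩ := h
  obtain ⟨hmk, hkap⟩ := kap hκ K hK
  have hKinf : ℵ₀ ≤ #K := by rw [hmk]; exact hκ0.le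
  have hP : Closed κ (Levy K L) := closed_levy hκ K L hmk
  -- coding of infinite sets
  obtain ⟨enc0, dec0, hdec0⟩ := exists_enc hc
  let dec : L → Set ℕ := fun l => if (dec0 l).Infinite then dec0 l else Set.univ
  have hdecinf : ∀ l, (dec l).Infinite := by
    intro l
    by_cases h : (dec0 l).Infinite
    · have : dec l = dec0 l := if_pos h
      rw [this]
      exact h
    · have : dec l = Set.univ := if_neg h
      rw [this]
      exact infinite_univ
  have henc : ∀ B : Set ℕ, B.Infinite → dec (enc0 B) = B := by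
    intro B hB
    have : dec (enc0 B) = dec0 (enc0 B) := if_pos (by rw [hdec0]; exact hB)
    rw [this, hdec0]
  have hmv : ∀ (q : Levy K L) y, (mv dec q y).Infinite := by
    intro q y
    unfold mv
    cases q.f y with
    | none => exact infinite_univ
    | some l => exact hdecinf l
  -- filling a condition
  have hfill : ∀ (q : Levy K L) (x : K), ∃ r ≤ q, ∀ y ≤ x, r.f y ≠ none := by
    intro q x
    have hg : #{y // (if y ≤ x then some (enc0 ∅) else none : Option L) ≠ none} < #K := by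
      refine (mk_le_mk_of_subset (t := Iic x) ?_).trans_lt (by
        rw [hmk]; exact iic_small hκ0.le hkap x)
      intro y hy
      by_contra hcon
      exact hy (if_neg hcon)
    refine ⟨q.ext (fun y => if y ≤ x then some (enc0 ∅) else none) hg hKinf, q.ext_le _ _ _, ?_⟩
    intro y hy
    change (q.f y).or (if y ≤ x then some (enc0 ∅) else none) ≠ none
    rw [if_pos hy]
    cases q.f y with
    | none => exact Option.some_ne_none _
    | some l => exact Option.some_ne_none _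
  have hput : ∀ (q : Levy K L) (l : L), ∃ r ≤ q, ∃ x, r.f x = some l := by
    intro q l
    obtain ⟨x, hx⟩ : ∃ x, q.f x = none := by
      by_contra hcon
      push Not at hcon
      have h1 : #{x // q.f x ≠ none} = #K :=
        mk_congr ⟨fun x => x.1, fun x => ⟨x, hcon x⟩, fun _ => rfl, fun _ => rfl⟩
      exact absurd q.small (by rw [h1]; exact lt_irrefl _)
    have hg : #{y // (if y = x then some l else none : Option L) ≠ none} < #K := by
      refine (mk_le_mk_of_subset (t := {x}) ?_).trans_lt ?_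
      · intro y hy
        by_contra hcon
        exact hy (if_neg hcon)
      · rw [mk_singleton]
        exact one_lt_aleph0.trans_le hKinf
    refine ⟨q.ext (fun y => if y = x then some l else none) hg hKinf, q.ext_le _ _ _, x, ?_⟩
    change (q.f x).or (if x = x then some l else none) = some l
    rw [hx, if_pos rfl]
    rfl
  intro q _ hq
  -- common part: unpack a homogeneous set
  have unpack : ∀ {V : Type} [LinearOrder V] (b : Bool) (r : Levy K L),
      r ∈ Homog V (gcol dec σ) b → ∃ r1 ≤ r, ∃ (R : V → K → Set (Levy K L)) (B : Set ℕ),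
        B.Infinite ∧ r1 ∈ IsInc R ∧ ∀ r2 ≤ r1, ∀ v x, r2 ∈ meets (R v x) → ∀ n ∈ B,
          ∃ r3 ≤ r2, r3 ∈ HasColour (gcol dec σ) x n b := by
    intro V _ b r hr
    obtain ⟨q1, hq1, A, h1⟩ := mem_fex.1 hr r le_rfl
    obtain ⟨q2, hq2, Bn, hA, hB, hcol⟩ := mem_fex.1 h1 q1 le_rfl
    obtain ⟨q3, hq3, R, hinc, hran⟩ := mem_fex.1 hA q2 le_rfl
    obtain ⟨r1, hr1, hdec1⟩ := decide hP (J := ℕ) (by rw [mk_nat]; exact hκ0)
      (fun n => meets (Bn n)) (fun n => down_meets _) q3
    refine ⟨r1, ((hr1.trans hq3).trans hq2).trans hq1, R, {n | r1 ∈ meets (Bn n)}, ?_, ?_, ?_⟩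
    · intro hfin
      obtain ⟨m, hm⟩ := hfin.bddAbove
      obtain ⟨r, hr, n, hn, hn'⟩ := mem_fex.1 (hB (m + 1)) r1 (hr1.trans hq3)
      have h1 : n ∈ {n | r1 ∈ meets (Bn n)} := by
        rcases hdec1 n with h | h
        · exact h
        · exact absurd hn' (h r hr)
      have h2 := hm h1
      have h3 : m + 1 ≤ n := hn
      omega
    · refine ⟨down_IsFun R _ hinc.1 _ hr1, fun w w' hww' x x' => ?_⟩
      exact down_fimp _ _ _ (hinc.2 w w' hww' x x') _ hr1
    · intro r2 hr2 v x hx n hn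
      obtain ⟨r', hr', h2⟩ := mem_fimp.1 ((hran x).1 v) r2 (hr2.trans hr1) hx
      obtain ⟨r'', hr'', h3⟩ := mem_fimp.1 (hcol x n) r'
        (((hr'.trans hr2).trans hr1).trans hq3)
        ⟨h2, down_meets _ _ hn _ (hr'.trans hr2)⟩
      exact ⟨r'', hr''.trans hr', h3⟩
  refine hq (gcol dec σ) q le_rfl ⟨?_, ?_⟩
  · -- colour `0`
    intro r _ hr
    obtain ⟨r1, hr1, R, B, hB, hinc, hcol⟩ := unpack false r hr
    obtain ⟨r2, hr2, ξ, hξ⟩ := hput r1 (enc0 B)
    have hge : ∀ w : K, ∀ r' ≤ r1, ∀ x, r' ∈ meets (R w x) → w ≤ x := by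
      intro w
      induction w using (wellFounded_lt (α := K)).induction with
      | _ w ih =>
      intro r' hr' x hx
      by_contra hcon
      push Not at hcon
      obtain ⟨r'', hr'', x', hx'⟩ := mem_fex.1 (hinc.1.1 x) r' hr'
      have h1 := ih x hcon r'' (hr''.trans hr') x' hx'
      obtain ⟨_, _, h2⟩ := mem_fimp.1 (hinc.2 x w hcon x' x) r'' (hr''.trans hr')
        ⟨hx', down_meets _ _ hx _ hr''⟩
      exact absurd h2 (not_lt.2 h1)
    obtain ⟨r3, hr3, x, hx⟩ := mem_fex.1 (hinc.1.1 ξ) r2 hr2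
    have hξx : ξ ≤ x := hge ξ r3 (hr3.trans hr2) x hx
    obtain ⟨r4, hr4, hfull⟩ := hfill r3 x
    have hwin := (hσ (mv dec r4) (hmv r4)).1 x ξ hξx
    have hBξ : mv dec r4 ξ = B := by
      unfold mv
      rw [hr4 ξ _ (hr3 ξ _ hξ)]
      exact henc B hB
    rw [hBξ] at hwin
    obtain ⟨n, hn, hnB⟩ := hwin.nonempty
    obtain ⟨r5, hr5, h5⟩ := hcol r4 ((hr4.trans hr3).trans hr2) ξ x (down_meets _ _ hx _ hr4) n hnB
    refine h5 r5 le_rfl ?_
    rw [meets_gcol dec σ (fun y hy => full_down hr5 (hfull y hy)) n, sig_eq dec σ hr5 hfull]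
    exact hn
  · -- colour `1`
    intro r _ hr
    obtain ⟨r1, hr1, R, B, hB, hinc, hcol⟩ := unpack true r hr
    have := hkap.nonempty hκ0
    obtain ⟨f, s, -, hs, r2, hr2, hrs⟩ := seq hP (J := W) (Y := K) hW r1
      (fun w _ x s => s ∈ meets (R w x)) (fun w _ q' hq' => by
        obtain ⟨s, hs, x, hx⟩ := mem_fex.1 (hinc.1.1 w) q' hq'
        exact ⟨s, hs, x, hx⟩)
    have hfR : ∀ w, r2 ∈ meets (R w (f w)) := fun w => down_meets _ _ (hs w) _ (hrs w)
    have hfmono : ∀ w w', w < w' → f w < f w' := by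
      intro w w' hww'
      obtain ⟨_, _, h2⟩ := mem_fimp.1 (hinc.2 w w' hww' (f w) (f w')) r2 hr2 ⟨hfR w, hfR w'⟩
      exact h2
    obtain ⟨z, hz⟩ := hkap.bdd (range f) (mk_range_le.trans_lt hW)
    obtain ⟨r3, hr3, hfull⟩ := hfill r2 z
    have hwin := (hσ (mv dec r3) (hmv r3)).2 f hfmono
    apply hB
    refine hwin.subset ?_
    intro n hn
    refine mem_iInter.2 fun w => ?_
    have hfw : ∀ y ≤ f w, r3.f y ≠ none := fun y hy => hfull y (hy.trans (hz _ ⟨w, rfl⟩).le)
    obtain ⟨r4, hr4, h4⟩ := hcol r3 (hr3.trans hr2) w (f w) (down_meets _ _ (hfR w) _ hr3) n hn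
    have h5 := (meets_gcol dec σ (fun y hy => full_down hr4 (hfw y hy)) n).1 h4
    rwa [sig_eq dec σ hr4 hfw] at h5

end Pool.Agent.Q213.LV
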